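import Pool.Agent.H13.PA.Path
import Pool.Agent.H54.PA.Defs

/-!
# THEOREM PA: the subgroups of the definitions of `H54.PA` are `GA` and `GE`
-/

set_option autoImplicit false

namespace Pool.Agent.H13.PA

open MvPolynomial

variable {K : Type} [Field K]

theorem mem_L {p : H54.PA.P K} : p ∈ H54.PA.L1 K ↔ p.totalDegree ≤ 1 := by
  rw [H54.PA.L1, mem_restrictTotalDegree]

theorem mem_A {φ : H54.PA.Au K} : φ ∈ H54.PA.A K ↔ φ ∈ GA K := by
  constructor
  · intro h i
    have h1 : (X i : H54.PA.P K) ∈ H54.PA.L1 K := by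
      rw [mem_L, totalDegree_X]
    exact mem_L.1 ((h (X i)).1 h1)
  · intro h p
    constructor
    · intro hp
      exact mem_L.2 (deg_map_le φ h (mem_L.1 hp))
    · intro hp
      have h1 := deg_map_le φ.symm (symm_aff φ h) (mem_L.1 hp)
      rw [AlgEquiv.symm_apply_apply] at h1
      exact mem_L.2 h1

theorem mem_K {p : H54.PA.P K} : p ∈ H54.PA.Ky K ↔ ∃ q : Polynomial K, Polynomial.aeval (X 1 : H54.PA.P K) q = p := by
  rw [H54.PA.Ky, Algebra.adjoin_singleton_eq_range_aeval]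
  rfl

theorem map_K {φ : H54.PA.Au K} (h : φ ∈ GE K) {p : H54.PA.P K} (hp : p ∈ H54.PA.Ky K) : φ p ∈ H54.PA.Ky K := by
  obtain ⟨q, rfl⟩ := mem_K.1 hp
  obtain ⟨t, s, -, h1⟩ := h
  have h2 : φ (Polynomial.aeval (X 1 : H54.PA.P K) q) = Polynomial.aeval (φ (X 1)) q :=
    (Polynomial.aeval_algHom_apply (φ : H54.PA.P K →ₐ[K] H54.PA.P K) (X 1) q).symm
  rw [h2, h1]
  refine mem_K.2 ⟨q.comp (Polynomial.C t * Polynomial.X + Polynomial.C s), ?_⟩
  rw [Polynomial.aeval_comp, map_add, map_mul, Polynomial.aeval_C, Polynomial.aeval_C, Polynomial.aeval_X]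
  rfl

theorem mem_E {φ : H54.PA.Au K} : φ ∈ H54.PA.E K ↔ φ ∈ GE K := by
  constructor
  · intro h
    have hX : (X 1 : H54.PA.P K) ∈ H54.PA.Ky K := mem_K.2 ⟨Polynomial.X, Polynomial.aeval_X _⟩
    obtain ⟨q, hq⟩ := mem_K.1 ((h (X 1)).1 hX)
    have h2 : φ.symm (X 1) ∈ H54.PA.Ky K := by
      rw [h, AlgEquiv.apply_symm_apply]
      exact hX
    obtain ⟨r, hr⟩ := mem_K.1 h2
    have h3 : φ (Polynomial.aeval (X 1 : H54.PA.P K) r) = Polynomial.aeval (φ (X 1)) r :=
      (Polynomial.aeval_algHom_apply (φ : H54.PA.P K →ₐ[K] H54.PA.P K) (X 1) r).symm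
    rw [hr, AlgEquiv.apply_symm_apply, ← hq, ← Polynomial.aeval_comp] at h3
    have h4 := congrArg (r0 (F := K)) h3
    rw [← Polynomial.aeval_algHom_apply, r0_X1] at h4
    have h5 : Polynomial.aeval (Polynomial.X : Polynomial K) (r.comp q) = r.comp q := Polynomial.comp_X
    rw [h5] at h4
    have h6 := congrArg Polynomial.natDegree h4
    rw [Polynomial.natDegree_X, Polynomial.natDegree_comp] at h6
    have h7 : q.natDegree = 1 := Nat.eq_one_of_mul_eq_one_left h6.symm
    have h8 : q = Polynomial.C (q.coeff 1) * Polynomial.X + Polynomial.C (q.coeff 0) :=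
      Polynomial.eq_X_add_C_of_natDegree_le_one (by omega)
    refine ⟨q.coeff 1, q.coeff 0, ?_, ?_⟩
    · intro h9
      have h10 : q.leadingCoeff = 0 := by
        rw [Polynomial.leadingCoeff, h7, h9]
      rw [Polynomial.leadingCoeff_eq_zero] at h10
      rw [h10] at h7
      simp at h7
    · rw [← hq]
      conv_lhs => rw [h8]
      rw [map_add, map_mul, Polynomial.aeval_C, Polynomial.aeval_C, Polynomial.aeval_X]
      rfl
  · intro h p
    constructor
    · exact map_K h
    · intro hp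
      have h1 := map_K ((GE K).inv_mem h) hp
      have h2 : φ⁻¹ (φ p) = p := φ.symm_apply_apply p
      rwa [h2] at h1

end Pool.Agent.H13.PA
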