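import Pool.Agent.H13.PA.Br

/-!
# THEOREM PA: coordinates
-/

set_option autoImplicit false

namespace Pool.Agent.H13.PA

open MvPolynomial

variable {F : Type} [Field F]

theorem al_eq {u : MvPolynomial (Fin 2) F ≃ₐ[F] MvPolynomial (Fin 2) F} {a b c : F}
    (h : u (X 0) = C a * X 0 + C b * X 1 + C c) : al u = a ∧ la u = b ∧ mu u = c := by
  refine ⟨?_, ?_, ?_⟩
  · rw [al, h]
    simp only [map_add, map_mul, r1_X0, r1_X1, r1_C, mul_zero, add_zero]
    simp
  · rw [la, h]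
    simp only [map_add, map_mul, r0_X0, r0_X1, r0_C, mul_zero, zero_add]
    simp
  · rw [mu, h]
    simp only [map_add, map_mul, r0_X0, r0_X1, r0_C, mul_zero, zero_add]
    simp

/-- the diagonal coefficients are not zero -/
theorem al_be_ne {u : MvPolynomial (Fin 2) F ≃ₐ[F] MvPolynomial (Fin 2) F} {a b c t s : F}
    (h0 : u (X 0) = C a * X 0 + C b * X 1 + C c) (h1 : u (X 1) = C t * X 1 + C s) : a ≠ 0 ∧ t ≠ 0 := by
  obtain ⟨D, hD, hJ⟩ := jac_const u
  have h1' : u (X 1) = C 0 * X 0 + C t * X 1 + C s := by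
    rw [h1, map_zero]
    ring
  rw [h0, h1', jac_aff] at hJ
  have hJ' : a * t - b * 0 = D := C_injective _ _ hJ
  rw [mul_zero, sub_zero] at hJ'
  constructor
  · rintro rfl
    exact hD (by rw [← hJ', zero_mul])
  · rintro rfl
    exact hD (by rw [← hJ', mul_zero])

theorem GA_of {u : MvPolynomial (Fin 2) F ≃ₐ[F] MvPolynomial (Fin 2) F} {a b c t s : F}
    (h0 : u (X 0) = C a * X 0 + C b * X 1 + C c) (h1 : u (X 1) = C t * X 1 + C s) : u ∈ GA F := by
  intro i
  fin_cases i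
  · change (u (X 0)).totalDegree ≤ 1
    rw [h0]
    exact deg_aff _ _ _
  · change (u (X 1)).totalDegree ≤ 1
    have h2 : u (X 1) = C 0 * X 0 + C t * X 1 + C s := by
      rw [h1, map_zero]
      ring
    rw [h2]
    exact deg_aff _ _ _

theorem GE_of {u : MvPolynomial (Fin 2) F ≃ₐ[F] MvPolynomial (Fin 2) F} {a b c t s : F}
    (h0 : u (X 0) = C a * X 0 + C b * X 1 + C c) (h1 : u (X 1) = C t * X 1 + C s) : u ∈ GE F :=
  ⟨t, s, (al_be_ne h0 h1).2, h1⟩

/-- the polynomial of an elementary automorphism that is not affine has degree at least two -/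
theorem el_deg [CharZero F] {e : MvPolynomial (Fin 2) F ≃ₐ[F] MvPolynomial (Fin 2) F} (heA : e ∉ GA F)
    {r t s : F} {P : Polynomial F} (he0 : e (X 0) = C r * X 0 + Polynomial.aeval (X 1 : MvPolynomial (Fin 2) F) P)
    (he1 : e (X 1) = C t * X 1 + C s) : 2 ≤ P.natDegree := by
  by_contra hcon
  push Not at hcon
  apply heA
  have hP : P = Polynomial.C (P.coeff 1) * Polynomial.X + Polynomial.C (P.coeff 0) :=
    Polynomial.eq_X_add_C_of_natDegree_le_one (by omega)
  have h1 : e (X 0) = C r * X 0 + C (P.coeff 1) * X 1 + C (P.coeff 0) := by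
    rw [he0]
    conv_lhs => rw [hP]
    rw [map_add, map_mul, Polynomial.aeval_X, Polynomial.aeval_C, Polynomial.aeval_C]
    change _ + (C _ * _ + C _) = _
    ring
  exact GA_of h1 he1

theorem r0_aeval (w : MvPolynomial (Fin 2) F) (Q : Polynomial F) : r0 (Polynomial.aeval w Q) = Q.comp (r0 w) :=
  (Polynomial.aeval_algHom_apply r0 w Q).symm

theorem r1_aeval (w : MvPolynomial (Fin 2) F) (Q : Polynomial F) :
    r1 (Polynomial.aeval w Q) = Q.comp (r1 w) :=
  (Polynomial.aeval_algHom_apply r1 w Q).symm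

theorem lin_poly {x y : F} {q r : Polynomial F}
    (h : (C x * X 0 + Polynomial.aeval (X 1 : MvPolynomial (Fin 2) F) q : MvPolynomial (Fin 2) F) =
      C y * X 0 + Polynomial.aeval (X 1 : MvPolynomial (Fin 2) F) r) : x = y ∧ q = r := by
  have h0 := congrArg (r0 (F := F)) h
  have h1 := congrArg (r1 (F := F)) h
  simp only [map_add, map_mul, r0_X0, r0_X1, r0_C, r1_X0, r1_X1, r1_C, r0_aeval, r1_aeval, mul_zero, zero_add,
    Polynomial.comp_X] at h0 h1
  refine ⟨?_, h0⟩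
  rw [h0] at h1
  have h2 := congrArg (fun q : Polynomial F => q.coeff 1) (add_right_cancel h1)
  simpa using h2

theorem eig {a : MvPolynomial (Fin 2) F ≃ₐ[F] MvPolynomial (Fin 2) F} (ha : a ∈ GA F) (ha' : a ∉ GE F)
    {u : MvPolynomial (Fin 2) F ≃ₐ[F] MvPolynomial (Fin 2) F} {α β l m γ : F}
    (h0 : u (X 0) = C α * X 0 + C l * X 1 + C m) (h1 : u (X 1) = C β * X 1 + C γ) (h : a⁻¹ * u * a ∈ GE F) :
    ∃ l' m' γ' : F, (a⁻¹ * u * a) (X 0) = C β * X 0 + C l' * X 1 + C m' ∧ (a⁻¹ * u * a) (X 1) = C α * X 1 + C γ' := by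
  have huA := GA_of h0 h1
  have huE := GE_of h0 h1
  have ha2 : a⁻¹ ∈ GA F := (GA F).inv_mem ha
  have ha3 : a⁻¹ ∉ GE F := fun h => ha' (by simpa using (GE F).inv_mem h)
  have hv : a⁻¹ * u * a ∈ GA F := (GA F).mul_mem ((GA F).mul_mem ha2 huA) ha
  have g : a⁻¹⁻¹ * (a⁻¹ * u * a) * a⁻¹ = u := by group
  have l5 := (line ha ha' huA huE h).1
  have l6 := (line ha2 ha3 hv h (by rw [g]; exact huE)).1
  rw [g] at l6
  rw [(al_eq h0).1] at l5
  rw [(be_eq h1).1] at l6
  refine ⟨la (a⁻¹ * u * a), mu (a⁻¹ * u * a), ga (a⁻¹ * u * a), ?_, ?_⟩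
  · rw [l6]
    exact form_A hv
  · rw [← l5]
    exact (form_E h).1

theorem unip {a : MvPolynomial (Fin 2) F ≃ₐ[F] MvPolynomial (Fin 2) F} (ha : a ∈ GA F) (ha' : a ∉ GE F)
    {u : MvPolynomial (Fin 2) F ≃ₐ[F] MvPolynomial (Fin 2) F} {l m γ : F}
    (h0 : u (X 0) = X 0 + C l * X 1 + C m) (h1 : u (X 1) = X 1 + C γ) (h : a⁻¹ * u * a ∈ GE F) : l = 0 := by
  have h0' : u (X 0) = C 1 * X 0 + C l * X 1 + C m := by
    rw [h0, map_one, one_mul]
  have h1' : u (X 1) = C 1 * X 1 + C γ := by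
    rw [h1, map_one, one_mul]
  have l1 := (line ha ha' (GA_of h0' h1') (GE_of h0' h1') h).2 (by rw [(al_eq h0').1, (be_eq h1').1])
  rw [← (al_eq h0').2.1]
  exact l1

theorem conj_coef {e u : MvPolynomial (Fin 2) F ≃ₐ[F] MvPolynomial (Fin 2) F} {r t τ α β l m γ : F}
    {q : Polynomial F} (hr : r ≠ 0)
    (he0 : e (X 0) = C r * X 0 + Polynomial.aeval (X 1 : MvPolynomial (Fin 2) F) q) (he1 : e (X 1) = C t * X 1 + C τ)
    (h0 : u (X 0) = C α * X 0 + C l * X 1 + C m) (h1 : u (X 1) = C β * X 1 + C γ) (h : e⁻¹ * u * e ∈ GA F) :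
    ∃ y z : F, (e⁻¹ * u * e) (X 0) = C α * X 0 + C y * X 1 + C z ∧
      q.comp (Polynomial.C β * Polynomial.X + Polynomial.C γ) + Polynomial.C (r * l) * Polynomial.X +
        Polynomial.C (r * m) = Polynomial.C α * q + Polynomial.C (y * t) * Polynomial.X + Polynomial.C (y * τ + z) := by
  obtain ⟨v, hv⟩ : ∃ v, v = e⁻¹ * u * e := ⟨_, rfl⟩
  rw [← hv] at h ⊢
  obtain ⟨x, y, z, hx⟩ := aff_form (h 0)
  have hmap : ∀ w, u (e w) = e (v w) := by
    intro w
    have h2 : e * v = u * e := by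
      rw [hv]
      group
    exact (congrArg (fun z : MvPolynomial (Fin 2) F ≃ₐ[F] MvPolynomial (Fin 2) F => z w) h2).symm
  have hua : ∀ Q : Polynomial F, u (Polynomial.aeval (X 1 : MvPolynomial (Fin 2) F) Q) =
      Polynomial.aeval (u (X 1)) Q := by
    intro Q
    exact (Polynomial.aeval_algHom_apply (u : MvPolynomial (Fin 2) F →ₐ[F] MvPolynomial (Fin 2) F) (X 1) Q).symm
  have m1 := hmap (X 0)
  rw [he0, map_add, map_mul, map_C, hua, h0, h1, hx, map_lin, he0, he1] at m1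
  have m2 := congrArg (r1 (F := F)) m1
  have m3 := congrArg (r0 (F := F)) m1
  simp only [map_add, map_mul, r1_X0, r1_X1, r1_C, r0_X0, r0_X1, r0_C, r1_aeval, r0_aeval, mul_zero, zero_add,
    add_zero, Polynomial.comp_X, Polynomial.comp_C, Polynomial.comp_zero] at m2 m3
  have m4 := congrArg (fun q : Polynomial F => q.coeff 1) m2
  simp at m4
  have hal : x = α := by
    apply mul_right_cancel₀ hr
    rw [mul_comm α r]
    exact m4.symm
  refine ⟨y, z, by rw [hx, hal], ?_⟩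
  rw [hal] at m3
  simp only [map_add, map_mul]
  linear_combination m3

theorem pow_rel [CharZero F] {e : MvPolynomial (Fin 2) F ≃ₐ[F] MvPolynomial (Fin 2) F} (he : e ∈ GE F) (he' : e ∉ GA F) :
    ∃ n : ℕ, 2 ≤ n ∧ ∀ (u : MvPolynomial (Fin 2) F ≃ₐ[F] MvPolynomial (Fin 2) F) (α β l m γ : F),
      u (X 0) = C α * X 0 + C l * X 1 + C m → u (X 1) = C β * X 1 + C γ → e⁻¹ * u * e ∈ GA F → α = β ^ n := by
  obtain ⟨r, t, s, P, hr, ht, he0, he1⟩ := el_form he
  have hn := el_deg he' he0 he1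
  refine ⟨P.natDegree, hn, ?_⟩
  intro u α β l m γ h0 h1 h
  obtain ⟨y, z, -, m5⟩ := conj_coef hr he0 he1 h0 h1 h
  have m6 := congrArg (fun q : Polynomial F => q.coeff P.natDegree) m5
  simp only [Polynomial.coeff_add, Polynomial.coeff_C_mul] at m6
  rw [Polynomial.coeff_X_of_ne_one (by omega), Polynomial.coeff_C_of_ne_zero (by omega),
    Polynomial.coeff_C_of_ne_zero (by omega), mul_zero, mul_zero, add_zero, add_zero, add_zero, add_zero] at m6
  have m7 : (P.comp (Polynomial.C β * Polynomial.X + Polynomial.C γ)).coeff P.natDegree = P.leadingCoeff * β ^ P.natDegree := by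
    have hb := (al_be_ne h0 h1).2
    have d1 : (Polynomial.C β * Polynomial.X + Polynomial.C γ : Polynomial F).natDegree = 1 :=
      Polynomial.natDegree_linear hb
    have d2 : (Polynomial.C β * Polynomial.X + Polynomial.C γ : Polynomial F).leadingCoeff = β :=
      Polynomial.leadingCoeff_linear hb
    have d3 : (P.comp (Polynomial.C β * Polynomial.X + Polynomial.C γ)).natDegree = P.natDegree := by
      rw [Polynomial.natDegree_comp, d1, mul_one]
    rw [← d3, Polynomial.coeff_natDegree, Polynomial.leadingCoeff_comp (by rw [d1]; exact one_ne_zero), d2, d3]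
  rw [m7] at m6
  have hlc : P.leadingCoeff ≠ 0 := by
    rw [Ne, Polynomial.leadingCoeff_eq_zero]
    rintro rfl
    simp at hn
  apply mul_right_cancel₀ hlc
  rw [mul_comm (β ^ P.natDegree)]
  exact m6.symm

theorem shift_coef (q : Polynomial F) (hq : 2 ≤ q.natDegree) (γ : F) :
    (q.comp (Polynomial.X + Polynomial.C γ) - q).coeff (q.natDegree - 1) = q.natDegree * q.leadingCoeff * γ := by
  have h1 : q.comp (Polynomial.X + Polynomial.C γ) = Polynomial.taylor γ q := rfl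
  rw [h1, Polynomial.coeff_sub, Polynomial.taylor_coeff]
  obtain ⟨n, hn⟩ : ∃ n, q.natDegree = n + 1 := ⟨q.natDegree - 1, by omega⟩
  rw [hn, Nat.add_sub_cancel]
  have h2 : (Polynomial.hasseDeriv n q).natDegree ≤ 1 := by
    refine (Polynomial.natDegree_hasseDeriv_le q n).trans ?_
    omega
  rw [Polynomial.eq_X_add_C_of_natDegree_le_one h2, Polynomial.hasseDeriv_coeff, Polynomial.hasseDeriv_coeff]
  simp only [Polynomial.eval_add, Polynomial.eval_mul, Polynomial.eval_C, Polynomial.eval_X, zero_add, Nat.choose_self,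
    Nat.cast_one, one_mul, add_sub_cancel_right]
  rw [add_comm 1 n, Nat.choose_succ_self_right, Polynomial.leadingCoeff, hn]

theorem gam_zero [CharZero F] {e a' : MvPolynomial (Fin 2) F ≃ₐ[F] MvPolynomial (Fin 2) F} (he : e ∈ GE F)
    (he' : e ∉ GA F) (ha : a' ∈ GA F) (ha' : a' ∉ GE F)
    {u : MvPolynomial (Fin 2) F ≃ₐ[F] MvPolynomial (Fin 2) F} {m γ : F} (h0 : u (X 0) = X 0 + C m)
    (h1 : u (X 1) = X 1 + C γ) (h : e⁻¹ * u * e ∈ GA F) (h' : (e * a')⁻¹ * u * (e * a') ∈ GE F) : γ = 0 := by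
  obtain ⟨r, t, s, P, hr, ht, he0, he1⟩ := el_form he
  have hn := el_deg he' he0 he1
  have h0' : u (X 0) = C 1 * X 0 + C 0 * X 1 + C m := by
    rw [h0, map_one, map_zero]
    ring
  have h1' : u (X 1) = C 1 * X 1 + C γ := by
    rw [h1, map_one, one_mul]
  obtain ⟨y, z, hv0, m5⟩ := conj_coef hr he0 he1 h0' h1' h
  obtain ⟨v, hv⟩ : ∃ v, v = e⁻¹ * u * e := ⟨_, rfl⟩
  have h2 : a'⁻¹ * v * a' ∈ GE F := by
    have h3 : a'⁻¹ * v * a' = (e * a')⁻¹ * u * (e * a') := by
      rw [hv]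
      group
    rw [h3]
    exact h'
  rw [← hv] at hv0
  have hv1 : v (X 1) = X 1 + C (t * γ) := by
    apply e.injective
    have h3 : e * v = u * e := by
      rw [hv]
      group
    have h4 : e (v (X 1)) = u (e (X 1)) :=
      congrArg (fun z : MvPolynomial (Fin 2) F ≃ₐ[F] MvPolynomial (Fin 2) F => z (X 1)) h3
    rw [h4, he1, map_add, map_mul, map_C, map_C, h1, map_add, map_C, he1, map_mul]
    ring
  have hv0' : v (X 0) = X 0 + C y * X 1 + C z := by
    rw [hv0, map_one, one_mul]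
  have hy : y = 0 := unip ha ha' hv0' hv1 h2
  rw [hy, zero_mul, mul_zero, map_zero, map_one, one_mul, one_mul, zero_mul, add_zero, zero_mul, zero_add, add_zero] at m5
  apply per hn (c := z - r * m)
  rw [map_sub]
  linear_combination m5

end Pool.Agent.H13.PA
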