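import Pool.Agent.H13.PA.Jac

/-!
# THEOREM PA (MP_2a547c, think 1876), chapter 1: the degree estimate, `m ∣ n` or `n ∣ m`

`st j G = y G_y - j G` multiplies the coefficient of `x^a y^b` by `b - j`, and `deg φ(st j G) ≤ deg φ(G) + (m + n - 2)`, `m = deg φ x`, `n = deg φ y`: `J(φ x, φ G) = φ(G_y) c`.
`W` = the weight of `G` for the weights `(m, n)`. The exponents `b` of the monomials of weight `W` are congruent modulo `p = m / gcd(m, n)`. Let `b₁` be the largest one, `S` the set of the others: `p #S ≤ b₁`. The product of the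
`st b`, `b ∈ S`, applied to `G` has only one monomial of weight `W`, so its image has degree `W`: `W ≤ deg φ(G) + #S (m + n - 2)`, and `W ≥ n b₁ ≥ n p #S`.
With `G = φ⁻¹ x`: if `p, s ≥ 2` then `1 = deg φ(G) ≥ 2`.
-/

set_option autoImplicit false

namespace Pool.Agent.H13.PA

open MvPolynomial

variable {F : Type} [Field F]

/-- the operator `y d/dy - j` -/
noncomputable def st (j : ℕ) (G : MvPolynomial (Fin 2) F) : MvPolynomial (Fin 2) F :=
  X 1 * pderiv 1 G - C (j : F) * G

theorem coeff_st (j : ℕ) (G : MvPolynomial (Fin 2) F) (d : Fin 2 →₀ ℕ) :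
    coeff d (st j G) = ((d 1 : F) - j) * coeff d G := by
  unfold st
  rw [coeff_sub, coeff_C_mul]
  by_cases h : d 1 = 0
  · have h1 : coeff d (X 1 * pderiv 1 G) = 0 := by
      rw [mul_comm, coeff_mul_X', if_neg]
      rw [Finsupp.mem_support_iff]
      exact fun h2 => h2 h
    rw [h1, h]
    push_cast
    ring
  · obtain ⟨e, he⟩ : ∃ e : Fin 2 →₀ ℕ, d = e + Finsupp.single 1 1 := by
      refine ⟨d - Finsupp.single 1 1, ?_⟩
      rw [tsub_add_cancel_of_le]
      rw [Finsupp.single_le_iff]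
      omega
    have h1 : coeff d (X 1 * pderiv 1 G) = coeff d G * (d 1) := by
      rw [he, mul_comm, coeff_mul_X, coeff_pderiv]
      simp
    rw [h1]
    ring

theorem st_mul (φ : MvPolynomial (Fin 2) F ≃ₐ[F] MvPolynomial (Fin 2) F)
    (hm : 1 ≤ (φ (X 0)).totalDegree) (hn : 1 ≤ (φ (X 1)).totalDegree) (j : ℕ) (G : MvPolynomial (Fin 2) F) :
    (φ (st j G)).totalDegree ≤ (φ G).totalDegree + ((φ (X 0)).totalDegree + (φ (X 1)).totalDegree - 2) := by
  obtain ⟨c, hc, hJ⟩ := jac_const φ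
  have h2 : ∀ u, (φ : MvPolynomial (Fin 2) F →ₐ[F] MvPolynomial (Fin 2) F) u = φ u := fun u => rfl
  have h1 := jac_map (φ : MvPolynomial (Fin 2) F →ₐ[F] MvPolynomial (Fin 2) F) (X 0) G
  rw [h2, h2, h2, h2, hJ] at h1
  have h3 : jac (X 0) G = pderiv 1 G := by
    unfold jac
    rw [pderiv_X_self, pderiv_X_of_ne (by decide)]
    ring
  rw [h3] at h1
  have hC : (C c : MvPolynomial (Fin 2) F) ≠ 0 := by
    rw [Ne, C_eq_zero]
    exact hc
  have h4 : (X 1 * pderiv 1 G : MvPolynomial (Fin 2) F) = X 1 * pderiv 1 G := rfl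
  have key : (φ (X 1 * pderiv 1 G)).totalDegree ≤
      (φ G).totalDegree + ((φ (X 0)).totalDegree + (φ (X 1)).totalDegree - 2) := by
    by_cases h0 : φ (pderiv 1 G) = 0
    · rw [map_mul, h0, mul_zero, totalDegree_zero]
      exact Nat.zero_le _
    · have h5 : (jac (φ (X 0)) (φ G)) ≠ 0 := by
        rw [h1]
        exact mul_ne_zero h0 hC
      have h6 := deg_jac h5
      rw [h1, totalDegree_mul_of_isDomain h0 hC, totalDegree_C] at h6
      rw [map_mul]
      have h7 := totalDegree_mul (φ (X 1)) (φ (pderiv 1 G))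
      omega
  unfold st
  rw [map_sub, map_mul φ (C _)]
  refine (totalDegree_sub _ _).trans (max_le key ?_)
  refine (totalDegree_mul _ _).trans ?_
  have h5 : (φ (C (j : F))).totalDegree = 0 := by
    have h6 : φ (C (j : F)) = C (j : F) := by
      rw [← algebraMap_eq]
      exact φ.commutes _
    rw [h6, totalDegree_C]
  omega

/-- apply the operators for a list -/
noncomputable def sts (L : List ℕ) (G : MvPolynomial (Fin 2) F) : MvPolynomial (Fin 2) F := L.foldr st G

theorem coeff_sts (L : List ℕ) (G : MvPolynomial (Fin 2) F) (d : Fin 2 →₀ ℕ) :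
    coeff d (sts L G) = (L.map fun j : ℕ => ((d 1 : F) - (j : F))).prod * coeff d G := by
  induction L with
  | nil => simp [sts]
  | cons a L ih =>
    have h1 : sts (a :: L) G = st a (sts L G) := rfl
    rw [h1, coeff_st, ih, List.map_cons, List.prod_cons]
    ring

theorem sts_mul (φ : MvPolynomial (Fin 2) F ≃ₐ[F] MvPolynomial (Fin 2) F)
    (hm : 1 ≤ (φ (X 0)).totalDegree) (hn : 1 ≤ (φ (X 1)).totalDegree) (L : List ℕ) (G : MvPolynomial (Fin 2) F) :
    (φ (sts L G)).totalDegree ≤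
      (φ G).totalDegree + L.length * ((φ (X 0)).totalDegree + (φ (X 1)).totalDegree - 2) := by
  induction L with
  | nil => simp [sts]
  | cons a L ih =>
    have h1 : sts (a :: L) G = st a (sts L G) := rfl
    rw [h1, List.length_cons]
    refine (st_mul φ hm hn a _).trans ?_
    rw [add_mul, one_mul]
    omega

theorem deg_pow {u : MvPolynomial (Fin 2) F} (hu : u ≠ 0) (k : ℕ) : (u ^ k).totalDegree = k * u.totalDegree := by
  induction k with
  | zero => rw [pow_zero, totalDegree_one, zero_mul]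
  | succ k ih => rw [pow_succ, totalDegree_mul_of_isDomain (pow_ne_zero _ hu) hu, ih, Nat.succ_mul]

/-- the weight -/
def wgt (m n : ℕ) (d : Fin 2 →₀ ℕ) : ℕ := d 0 * m + d 1 * n

theorem deg_mono (φ : MvPolynomial (Fin 2) F ≃ₐ[F] MvPolynomial (Fin 2) F) (d : Fin 2 →₀ ℕ) {a : F} (ha : a ≠ 0) :
    (φ (monomial d a)).totalDegree = wgt (φ (X 0)).totalDegree (φ (X 1)).totalDegree d := by
  have h1 : (monomial d a : MvPolynomial (Fin 2) F) = C a * (X 0 ^ (d 0) * X 1 ^ (d 1)) := by
    rw [monomial_eq, Finsupp.prod_fintype _ _ (fun _ => pow_zero _), Fin.prod_univ_two]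
  have hx : ∀ i, φ (X i) ≠ 0 := by
    intro i h
    exact X_ne_zero i (φ.injective (h.trans (map_zero φ).symm))
  have h2 : φ (C a) = C a := by
    rw [← algebraMap_eq]
    exact φ.commutes _
  have h3 : (C a : MvPolynomial (Fin 2) F) ≠ 0 := by
    rw [Ne, C_eq_zero]
    exact ha
  rw [h1, map_mul, map_mul, map_pow, map_pow, h2,
    totalDegree_mul_of_isDomain h3 (mul_ne_zero (pow_ne_zero _ (hx 0)) (pow_ne_zero _ (hx 1))),
    totalDegree_mul_of_isDomain (pow_ne_zero _ (hx 0)) (pow_ne_zero _ (hx 1)), deg_pow (hx 0),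
    deg_pow (hx 1), totalDegree_C, zero_add]
  rfl

theorem deg_phi_le (φ : MvPolynomial (Fin 2) F ≃ₐ[F] MvPolynomial (Fin 2) F) (H : MvPolynomial (Fin 2) F) (w : ℕ)
    (h : ∀ d ∈ H.support, wgt (φ (X 0)).totalDegree (φ (X 1)).totalDegree d ≤ w) : (φ H).totalDegree ≤ w := by
  conv_lhs => rw [as_sum H]
  rw [map_sum]
  refine totalDegree_finsetSum_le fun d hd => ?_
  rw [deg_mono φ d (mem_support_iff.1 hd)]
  exact h d hd

theorem wgt_mod {m n c p s : ℕ} (hc : 0 < c) (hm : m = c * p) (hn : n = c * s) (hps : Nat.Coprime p s)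
    {d e : Fin 2 →₀ ℕ} (h : wgt m n d = wgt m n e) : d 1 ≡ e 1 [MOD p] := by
  unfold wgt at h
  have h1 : d 0 * p + d 1 * s = e 0 * p + e 1 * s := by
    apply Nat.eq_of_mul_eq_mul_left hc
    rw [hm, hn] at h
    linarith
  have h2 : d 0 * p + d 1 * s ≡ e 0 * p + e 1 * s [MOD p] := by rw [h1]
  have h3 : ∀ a b : ℕ, a * p + b * s ≡ b * s [MOD p] := by
    intro a b
    have h4 : a * p ≡ 0 [MOD p] := (Nat.modEq_zero_iff_dvd).2 (Dvd.intro_left a rfl)
    have h5 := h4.add_right (b * s)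
    rwa [zero_add] at h5
  have h5 : d 1 * s ≡ e 1 * s [MOD p] := (h3 _ _).symm.trans (h2.trans (h3 _ _))
  exact Nat.ModEq.cancel_right_of_coprime hps h5

theorem card_mod {p b : ℕ} (hp : 0 < p) (S : Finset ℕ) (hS : ∀ j ∈ S, j < b ∧ j ≡ b [MOD p]) : p * S.card ≤ b := by
  have h1 : S.card ≤ (Finset.Icc 1 (b / p)).card := by
    refine Finset.card_le_card_of_injOn (fun j => (b - j) / p) (fun j hj => ?_) (fun i hi j hj hij => ?_)
    · obtain ⟨h2, h3⟩ := hS j hj
      have h4 : p ∣ b - j := (Nat.modEq_iff_dvd' h2.le).1 h3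
      rw [Finset.coe_Icc, Set.mem_Icc]
      constructor
      · exact (Nat.one_le_div_iff hp).2 (Nat.le_of_dvd (by omega) h4)
      · exact Nat.div_le_div_right (Nat.sub_le _ _)
    · obtain ⟨h2, h3⟩ := hS i hi
      obtain ⟨h4, h5⟩ := hS j hj
      have h6 : p ∣ b - i := (Nat.modEq_iff_dvd' h2.le).1 h3
      have h7 : p ∣ b - j := (Nat.modEq_iff_dvd' h4.le).1 h5
      have h8 : (b - i) / p = (b - j) / p := hij
      have h9 := Nat.div_mul_cancel h6
      have h10 := Nat.div_mul_cancel h7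
      rw [h8] at h9
      omega
  rw [Nat.card_Icc] at h1
  have h2 : p * (b / p) ≤ b := Nat.mul_div_le b p
  have h4 : S.card ≤ b / p := by
    refine h1.trans ?_
    rw [Nat.add_sub_cancel]
  have h3 : p * S.card ≤ p * (b / p) := Nat.mul_le_mul_left p h4
  omega

variable [CharZero F]

/-- the degrees of a coordinate system divide each other -/
theorem div_deg (φ : MvPolynomial (Fin 2) F ≃ₐ[F] MvPolynomial (Fin 2) F)
    (hm1 : 1 ≤ (φ (X 0)).totalDegree) (hn1 : 1 ≤ (φ (X 1)).totalDegree) :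
    (φ (X 0)).totalDegree ∣ (φ (X 1)).totalDegree ∨ (φ (X 1)).totalDegree ∣ (φ (X 0)).totalDegree := by
  obtain ⟨m, hm⟩ : ∃ m, m = (φ (X 0)).totalDegree := ⟨_, rfl⟩
  obtain ⟨n, hn⟩ : ∃ n, n = (φ (X 1)).totalDegree := ⟨_, rfl⟩
  rw [← hm] at hm1 ⊢
  rw [← hn] at hn1 ⊢
  by_contra hcon
  push Not at hcon
  obtain ⟨hmn, hnm⟩ := hcon
  obtain ⟨c, hc⟩ : ∃ c, c = Nat.gcd m n := ⟨_, rfl⟩
  have hc0 : 0 < c := by
    rw [hc]
    exact Nat.gcd_pos_of_pos_left n hm1
  obtain ⟨p, hp⟩ : ∃ p, m = c * p := by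
    rw [hc]
    exact Nat.gcd_dvd_left m n
  obtain ⟨s, hs⟩ : ∃ s, n = c * s := by
    rw [hc]
    exact Nat.gcd_dvd_right m n
  have hps : Nat.Coprime p s := by
    have h1 : c * Nat.gcd p s = c * 1 := by
      rw [← Nat.gcd_mul_left, ← hp, ← hs, ← hc, mul_one]
    exact Nat.eq_of_mul_eq_mul_left hc0 h1
  have hp2 : 2 ≤ p := by
    by_contra h
    have h1 : p = 0 ∨ p = 1 := by omega
    rcases h1 with rfl | rfl
    · omega
    · apply hmn
      rw [hp, hs, mul_one]
      exact Dvd.intro s rfl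
  have hs2 : 2 ≤ s := by
    by_contra h
    have h1 : s = 0 ∨ s = 1 := by omega
    rcases h1 with rfl | rfl
    · omega
    · apply hnm
      rw [hp, hs, mul_one]
      exact Dvd.intro p rfl
  have hne : p ≠ s := by
    rintro rfl
    rw [Nat.coprime_self] at hps
    omega
  have hkey : m + n + 1 ≤ n * p := by
    have h1 : s + p + 1 ≤ s * p := by
      rcases Nat.lt_or_ge p s with h | h
      · nlinarith
      · have : s < p := lt_of_le_of_ne h (Ne.symm hne)
        nlinarith
    have h2 := Nat.mul_le_mul_left c h1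
    have h3 : c * (s * p) = n * p := by rw [hs]; ring
    have h4 : c * (s + p + 1) = m + n + c := by rw [hs, hp]; ring
    omega
  have hm2 : 2 ≤ m := by nlinarith
  have hn2 : 2 ≤ n := by nlinarith
  -- the polynomial
  obtain ⟨G, hG⟩ : ∃ G, φ G = X 0 := ⟨φ.symm (X 0), φ.apply_symm_apply _⟩
  have hG1 : (φ G).totalDegree = 1 := by rw [hG, totalDegree_X]
  obtain ⟨e0, he0, he0'⟩ : ∃ e ∈ G.support, e ≠ 0 := by
    by_contra h
    push Not at h
    have h1 : (φ G).totalDegree ≤ 0 := by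
      refine deg_phi_le φ G 0 fun d hd => ?_
      rw [h d hd]
      simp [wgt]
    omega
  obtain ⟨e1, he1, hmax⟩ := Finset.exists_max_image G.support (wgt m n) ⟨e0, he0⟩
  obtain ⟨W, hW⟩ : ∃ W, W = wgt m n e1 := ⟨_, rfl⟩
  rw [← hW] at hmax
  have hW2 : 2 ≤ W := by
    refine le_trans ?_ (hmax e0 he0)
    unfold wgt
    have h1 : e0 0 ≠ 0 ∨ e0 1 ≠ 0 := by
      by_contra h
      push Not at h
      apply he0'
      ext i
      fin_cases i
      · exact h.1
      · exact h.2
    rcases h1 with h1 | h1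
    · have := Nat.mul_le_mul (Nat.one_le_iff_ne_zero.2 h1) hm2
      omega
    · have := Nat.mul_le_mul (Nat.one_le_iff_ne_zero.2 h1) hn2
      omega
  obtain ⟨T, hT⟩ : ∃ T, T = G.support.filter (fun d => wgt m n d = W) := ⟨_, rfl⟩
  have hTne : T.Nonempty := ⟨e1, by rw [hT, Finset.mem_filter]; exact ⟨he1, hW.symm⟩⟩
  obtain ⟨e, heT, hemax⟩ := Finset.exists_max_image T (fun d => d 1) hTne
  have heT' := heT
  rw [hT, Finset.mem_filter] at heT'
  obtain ⟨heG, heW⟩ := heT'
  obtain ⟨S, hS⟩ : ∃ S, S = (T.image fun d => d 1).erase (e 1) := ⟨_, rfl⟩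
  have hScard : p * S.card ≤ e 1 := by
    apply card_mod (by omega)
    intro j hj
    rw [hS, Finset.mem_erase, Finset.mem_image] at hj
    obtain ⟨hje, d, hd, rfl⟩ := hj
    have h1 := hemax d hd
    refine ⟨lt_of_le_of_ne h1 hje, ?_⟩
    rw [hT, Finset.mem_filter] at hd
    exact wgt_mod hc0 hp hs hps (hd.2.trans heW.symm)
  -- the polynomial with one monomial of weight `W`
  obtain ⟨G1, hG1'⟩ : ∃ G1, G1 = sts S.toList G := ⟨_, rfl⟩
  have hco : ∀ d, coeff d G1 = (∏ j ∈ S, ((d 1 : F) - (j : F))) * coeff d G := by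
    intro d
    rw [hG1', coeff_sts, Finset.prod_map_toList]
  have hce : coeff e G1 ≠ 0 := by
    rw [hco]
    refine mul_ne_zero (Finset.prod_ne_zero_iff.2 fun j hj => ?_) (mem_support_iff.1 heG)
    rw [hS, Finset.mem_erase] at hj
    intro h
    apply hj.1
    exact_mod_cast (sub_eq_zero.1 h).symm
  have hsupp : ∀ d ∈ (G1 - monomial e (coeff e G1)).support, wgt m n d ≤ W - 1 := by
    intro d hd
    rw [mem_support_iff, coeff_sub, coeff_monomial] at hd
    have hde : d ≠ e := by
      rintro rfl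
      rw [if_pos rfl, sub_self] at hd
      exact hd rfl
    rw [if_neg (Ne.symm hde), sub_zero, hco] at hd
    have hdG : d ∈ G.support := mem_support_iff.2 (right_ne_zero_of_mul hd)
    have h1 := hmax d hdG
    rcases h1.lt_or_eq with h2 | h2
    · omega
    · exfalso
      have hdT : d ∈ T := by
        rw [hT, Finset.mem_filter]
        exact ⟨hdG, h2⟩
      have h3 : d 1 ≠ e 1 := by
        intro h4
        apply hde
        have h5 : d 0 * m = e 0 * m := by
          unfold wgt at h2 heW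
          rw [h4] at h2
          omega
        have h6 : d 0 = e 0 := Nat.eq_of_mul_eq_mul_right hm1 h5
        ext i
        fin_cases i
        · exact h6
        · exact h4
      have h4 : d 1 ∈ S := by
        rw [hS, Finset.mem_erase, Finset.mem_image]
        exact ⟨h3, d, hdT, rfl⟩
      apply left_ne_zero_of_mul hd
      exact Finset.prod_eq_zero h4 (sub_self _)
  have hd1 : (φ (G1 - monomial e (coeff e G1))).totalDegree ≤ W - 1 := by
    apply deg_phi_le
    rw [← hm, ← hn]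
    exact hsupp
  have hd2 : (φ (monomial e (coeff e G1))).totalDegree = W := by
    rw [deg_mono φ e hce, ← hm, ← hn]
    exact heW
  have hd3 : (φ G1).totalDegree = W := by
    have h1 : G1 = monomial e (coeff e G1) + (G1 - monomial e (coeff e G1)) := by ring
    rw [h1, map_add, totalDegree_add_eq_left_of_totalDegree_lt]
    · exact hd2
    · rw [hd2]
      omega
  have hd4 := sts_mul φ (by rw [← hm]; exact hm1) (by rw [← hn]; exact hn1) S.toList G
  rw [← hG1', hd3, hG1, Finset.length_toList, ← hm, ← hn] at hd4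
  have hd5 : n * (p * S.card) ≤ W := by
    rw [← heW]
    unfold wgt
    have := Nat.mul_le_mul_left n hScard
    nlinarith
  have hd6 : (m + n + 1) * S.card ≤ W := by
    refine le_trans ?_ hd5
    have := Nat.mul_le_mul_right S.card hkey
    nlinarith
  have hd7 : S.card * (m + n - 2) + 3 * S.card = (m + n + 1) * S.card := by
    have h1 : m + n + 1 = (m + n - 2) + 3 := by omega
    rw [h1]
    ring
  rcases Nat.eq_zero_or_pos S.card with h0 | h0
  · rw [h0, zero_mul] at hd4
    omega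
  · omega

end Pool.Agent.H13.PA
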