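import Pool.Agent.H13.PA.Jung

/-!
# THEOREM PA (MP_2a547c, think 1876): the affine and the elementary subgroup

`GA`: the automorphisms with `deg φ x, deg φ y ≤ 1`; `GE`: those with `φ y = b y + c`. Normal forms.
-/

set_option autoImplicit false

namespace Pool.Agent.H13.PA

open MvPolynomial

variable {F : Type} [Field F]

theorem aff_form {u : MvPolynomial (Fin 2) F} (h : u.totalDegree ≤ 1) :
    ∃ a b c : F, u = C a * X 0 + C b * X 1 + C c := by
  classical
  refine ⟨coeff (Finsupp.single 0 1) u, coeff (Finsupp.single 1 1) u, coeff 0 u, ?_⟩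
  have hX : ∀ i : Fin 2, (X i : MvPolynomial (Fin 2) F) = monomial (Finsupp.single i 1) 1 := fun _ => rfl
  ext d
  rw [coeff_add, coeff_add, coeff_C_mul, coeff_C_mul, coeff_C, hX, hX, coeff_monomial, coeff_monomial]
  by_cases hd : coeff d u = 0
  · have key : ∀ e : Fin 2 →₀ ℕ, e = d → coeff e u = 0 := fun e he => by rw [he, hd]
    have t1 : coeff (Finsupp.single 0 1) u * (if Finsupp.single 0 1 = d then 1 else 0) = 0 := by
      split_ifs with h1
      · rw [key _ h1, zero_mul]
      · rw [mul_zero]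
    have t2 : coeff (Finsupp.single 1 1) u * (if Finsupp.single 1 1 = d then 1 else 0) = 0 := by
      split_ifs with h1
      · rw [key _ h1, zero_mul]
      · rw [mul_zero]
    have t3 : (if 0 = d then coeff 0 u else 0) = 0 := by
      split_ifs with h1
      · exact key _ h1
      · rfl
    rw [hd, t1, t2, t3]
    ring
  · have h1 := (deg_of_coeff hd).trans h
    have h2 : (d 0 = 1 ∧ d 1 = 0) ∨ (d 0 = 0 ∧ d 1 = 1) ∨ (d 0 = 0 ∧ d 1 = 0) := by omega
    rcases h2 with ⟨h2, h3⟩ | ⟨h2, h3⟩ | ⟨h2, h3⟩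
    · have hd' : d = Finsupp.single 0 1 := by
        ext i
        fin_cases i
        · simpa using h2
        · simpa using h3
      subst hd'
      rw [if_pos rfl, if_neg, if_neg]
      · ring
      · intro h4
        have := congrArg (fun f : Fin 2 →₀ ℕ => f 0) h4
        simp at this
      · intro h4
        have := congrArg (fun f : Fin 2 →₀ ℕ => f 0) h4
        simp at this
    · have hd' : d = Finsupp.single 1 1 := by
        ext i
        fin_cases i
        · simpa using h2
        · simpa using h3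
      subst hd'
      rw [if_neg, if_pos rfl, if_neg]
      · ring
      · intro h4
        have := congrArg (fun f : Fin 2 →₀ ℕ => f 1) h4
        simp at this
      · intro h4
        have := congrArg (fun f : Fin 2 →₀ ℕ => f 0) h4
        simp at this
    · have hd' : d = 0 := by
        ext i
        fin_cases i
        · exact h2
        · exact h3
      subst hd'
      rw [if_neg, if_neg, if_pos rfl]
      · ring
      · intro h4
        have := congrArg (fun f : Fin 2 →₀ ℕ => f 1) h4
        simp at this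
      · intro h4
        have := congrArg (fun f : Fin 2 →₀ ℕ => f 0) h4
        simp at this

theorem deg_aff (a b c : F) : (C a * X 0 + C b * X 1 + C c : MvPolynomial (Fin 2) F).totalDegree ≤ 1 := by
  refine (totalDegree_add _ _).trans (max_le ((totalDegree_add _ _).trans (max_le ?_ ?_)) ?_)
  · refine (totalDegree_mul _ _).trans ?_
    rw [totalDegree_C, totalDegree_X]
  · refine (totalDegree_mul _ _).trans ?_
    rw [totalDegree_C, totalDegree_X]
  · rw [totalDegree_C]
    exact Nat.zero_le _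

theorem map_C (φ : MvPolynomial (Fin 2) F ≃ₐ[F] MvPolynomial (Fin 2) F) (a : F) : φ (C a) = C a := by
  rw [← algebraMap_eq]
  exact φ.commutes _

theorem map_lin (φ : MvPolynomial (Fin 2) F ≃ₐ[F] MvPolynomial (Fin 2) F) (a b c : F) :
    φ (C a * X 0 + C b * X 1 + C c) = C a * φ (X 0) + C b * φ (X 1) + C c := by
  rw [map_add, map_add, map_mul, map_mul, map_C, map_C, map_C]

/-- images of polynomials of degree at most one -/
theorem deg_map_le (φ : MvPolynomial (Fin 2) F ≃ₐ[F] MvPolynomial (Fin 2) F) (h : ∀ i, (φ (X i)).totalDegree ≤ 1)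
    {u : MvPolynomial (Fin 2) F} (hu : u.totalDegree ≤ 1) : (φ u).totalDegree ≤ 1 := by
  obtain ⟨a, b, c, rfl⟩ := aff_form hu
  rw [map_add, map_add, map_mul, map_mul, map_C, map_C, map_C]
  refine (totalDegree_add _ _).trans (max_le ((totalDegree_add _ _).trans (max_le ?_ ?_)) ?_)
  · refine (totalDegree_mul _ _).trans ?_
    rw [totalDegree_C, zero_add]
    exact h 0
  · refine (totalDegree_mul _ _).trans ?_
    rw [totalDegree_C, zero_add]
    exact h 1
  · rw [totalDegree_C]
    exact Nat.zero_le _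

theorem jac_aff (a b c a' b' c' : F) : jac (C a * X 0 + C b * X 1 + C c) (C a' * X 0 + C b' * X 1 + C c') =
    (C (a * b' - b * a') : MvPolynomial (Fin 2) F) := by
  have h01 : pderiv 0 (X 1 : MvPolynomial (Fin 2) F) = 0 := pderiv_X_of_ne (by decide)
  have h10 : pderiv 1 (X 0 : MvPolynomial (Fin 2) F) = 0 := pderiv_X_of_ne (by decide)
  unfold jac
  simp only [map_add, pderiv_C_mul, pderiv_X_self, h01, h10, pderiv_C]
  rw [map_sub, map_mul, map_mul]
  ring

theorem symm_aff (φ : MvPolynomial (Fin 2) F ≃ₐ[F] MvPolynomial (Fin 2) F) (h : ∀ i, (φ (X i)).totalDegree ≤ 1)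
    (i : Fin 2) : (φ.symm (X i)).totalDegree ≤ 1 := by
  obtain ⟨a, b, c, e0⟩ := aff_form (h 0)
  obtain ⟨a', b', c', e1⟩ := aff_form (h 1)
  obtain ⟨D, hD, hJ⟩ := jac_const φ
  rw [e0, e1, jac_aff] at hJ
  have hJ' : a * b' - b * a' = D := C_injective _ _ hJ
  have hcan : ∀ v w : MvPolynomial (Fin 2) F, φ v = w → φ.symm w = v := fun v w hvw => by
    rw [← hvw, φ.symm_apply_apply]
  have hCD : (C D⁻¹ * C D : MvPolynomial (Fin 2) F) = 1 := by
    rw [← C_mul, inv_mul_cancel₀ hD, C_1]
  have hCJ : (C a * C b' - C b * C a' : MvPolynomial (Fin 2) F) = C D := by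
    rw [← hJ', map_sub, map_mul, map_mul]
  fin_cases i
  · have h1 : φ (C (D⁻¹ * b') * X 0 + C (-(D⁻¹ * b)) * X 1 + C (D⁻¹ * (b * c' - b' * c))) = X 0 := by
      rw [map_lin, e0, e1]
      simp only [map_mul, map_neg, map_sub]
      linear_combination (X 0) * hCD + C D⁻¹ * X 0 * hCJ
    change (φ.symm (X 0)).totalDegree ≤ 1
    rw [hcan _ _ h1]
    exact deg_aff _ _ _
  · have h1 : φ (C (-(D⁻¹ * a')) * X 0 + C (D⁻¹ * a) * X 1 + C (D⁻¹ * (a' * c - a * c'))) = X 1 := by
      rw [map_lin, e0, e1]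
      simp only [map_mul, map_neg, map_sub]
      linear_combination (X 1) * hCD + C D⁻¹ * X 1 * hCJ
    change (φ.symm (X 1)).totalDegree ≤ 1
    rw [hcan _ _ h1]
    exact deg_aff _ _ _

variable (F) in
/-- the affine automorphisms -/
def GA : Subgroup (MvPolynomial (Fin 2) F ≃ₐ[F] MvPolynomial (Fin 2) F) where
  carrier := {φ | ∀ i, (φ (X i)).totalDegree ≤ 1}
  mul_mem' := by
    intro φ ψ hφ hψ i
    exact deg_map_le φ hφ (hψ i)
  one_mem' := by
    intro i
    change (X i : MvPolynomial (Fin 2) F).totalDegree ≤ 1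
    rw [totalDegree_X]
  inv_mem' := by
    intro φ hφ i
    exact symm_aff φ hφ i

variable (F) in
/-- the elementary automorphisms -/
def GE : Subgroup (MvPolynomial (Fin 2) F ≃ₐ[F] MvPolynomial (Fin 2) F) where
  carrier := {φ | ∃ t s : F, t ≠ 0 ∧ φ (X 1) = C t * X 1 + C s}
  mul_mem' := by
    rintro φ ψ ⟨t, s, ht, h⟩ ⟨t', s', ht', h'⟩
    refine ⟨t' * t, t' * s + s', mul_ne_zero ht' ht, ?_⟩
    change φ (ψ (X 1)) = _
    rw [h', map_add, map_mul, map_C, map_C, h, map_mul, map_add, map_mul]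
    ring
  one_mem' := by
    refine ⟨1, 0, one_ne_zero, ?_⟩
    change X 1 = _
    rw [map_one, map_zero]
    ring
  inv_mem' := by
    rintro φ ⟨t, s, ht, h⟩
    refine ⟨t⁻¹, -(t⁻¹ * s), inv_ne_zero ht, ?_⟩
    have h1 : φ (C t⁻¹ * X 1 + C (-(t⁻¹ * s))) = X 1 := by
      rw [map_add, map_mul, map_C, map_C, h, map_neg, map_mul]
      have h2 : (C t⁻¹ * C t : MvPolynomial (Fin 2) F) = 1 := by
        rw [← C_mul, inv_mul_cancel₀ ht, C_1]
      linear_combination X 1 * h2
    change φ.symm (X 1) = _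
    rw [← h1, φ.symm_apply_apply, h1]

end Pool.Agent.H13.PA
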