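import Mathlib

/-!
# THEOREM PA (MP_2a547c, think 1876), chapter 1: the Jacobian

`jac u v = u_x v_y - u_y v_x`; chain rule; `jac (φ G) (φ H) = φ (jac G H) * jac (φ x) (φ y)`, so it is a nonzero constant for an automorphism; `deg jac u v ≤ deg u + deg v - 2`.
-/

set_option autoImplicit false

namespace Pool.Agent.H13.PA

open MvPolynomial

variable {F : Type} [Field F]

/-- the Jacobian -/
noncomputable def jac (u v : MvPolynomial (Fin 2) F) : MvPolynomial (Fin 2) F :=
  pderiv 0 u * pderiv 1 v - pderiv 1 u * pderiv 0 v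

theorem chain (φ : MvPolynomial (Fin 2) F →ₐ[F] MvPolynomial (Fin 2) F) (i : Fin 2) (G : MvPolynomial (Fin 2) F) :
    pderiv i (φ G) = φ (pderiv 0 G) * pderiv i (φ (X 0)) + φ (pderiv 1 G) * pderiv i (φ (X 1)) := by
  induction G using MvPolynomial.induction_on with
  | C a =>
    have h1 : φ (C a) = C a := by
      rw [← algebraMap_eq]
      exact φ.commutes a
    rw [h1, pderiv_C, pderiv_C, pderiv_C, map_zero, zero_mul, zero_mul, add_zero]
  | add p q hp hq =>
    rw [map_add, map_add, hp, hq, map_add, map_add, map_add, map_add]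
    ring
  | mul_X p j hp =>
    have key : ∀ l : Fin 2, φ (pderiv l (X j : MvPolynomial (Fin 2) F)) = if j = l then 1 else 0 := by
      intro l
      rw [pderiv_X]
      by_cases h : j = l
      · subst h
        simp
      · rw [Pi.single_eq_of_ne h, if_neg h, map_zero]
    rw [map_mul, pderiv_mul, hp, pderiv_mul, pderiv_mul, map_add, map_add, map_mul, map_mul, map_mul, map_mul, key, key]
    fin_cases j
    · simp
      ring
    · simp
      ring

theorem jac_map (φ : MvPolynomial (Fin 2) F →ₐ[F] MvPolynomial (Fin 2) F) (G H : MvPolynomial (Fin 2) F) :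
    jac (φ G) (φ H) = φ (jac G H) * jac (φ (X 0)) (φ (X 1)) := by
  unfold jac
  rw [chain φ 0 G, chain φ 1 G, chain φ 0 H, chain φ 1 H, map_sub, map_mul, map_mul]
  ring

theorem jac_X : jac (X 0 : MvPolynomial (Fin 2) F) (X 1) = 1 := by
  unfold jac
  rw [pderiv_X_self, pderiv_X_self, pderiv_X_of_ne (by decide), pderiv_X_of_ne (by decide)]
  ring

theorem jac_const (φ : MvPolynomial (Fin 2) F ≃ₐ[F] MvPolynomial (Fin 2) F) :
    ∃ c : F, c ≠ 0 ∧ jac (φ (X 0)) (φ (X 1)) = C c := by
  have h1 := jac_map (φ : MvPolynomial (Fin 2) F →ₐ[F] MvPolynomial (Fin 2) F) (φ.symm (X 0)) (φ.symm (X 1))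
  have h2 : ∀ u, (φ : MvPolynomial (Fin 2) F →ₐ[F] MvPolynomial (Fin 2) F) u = φ u := fun u => rfl
  rw [h2, h2, h2, h2, h2, φ.apply_symm_apply, φ.apply_symm_apply, jac_X] at h1
  have h3 : IsUnit (jac (φ (X 0)) (φ (X 1))) := IsUnit.of_mul_eq_one _ (by rw [mul_comm]; exact h1.symm)
  obtain ⟨c, hc, h4⟩ := isUnit_iff_eq_C_of_isReduced.1 h3
  exact ⟨c, hc.ne_zero, h4⟩

theorem deg_pderiv (i : Fin 2) (u : MvPolynomial (Fin 2) F) : (pderiv i u).totalDegree ≤ u.totalDegree - 1 := by
  rw [totalDegree]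
  refine Finset.sup_le fun d hd => ?_
  have h1 : coeff d (pderiv i u) ≠ 0 := by rwa [mem_support_iff] at hd
  rw [coeff_pderiv] at h1
  have h2 : d + Finsupp.single i 1 ∈ u.support := by
    rw [mem_support_iff]
    exact left_ne_zero_of_mul h1
  have h3 := le_totalDegree h2
  have h4 : ((d + Finsupp.single i 1).sum fun _ e => e) = (d.sum fun _ e => e) + 1 := by
    rw [Finsupp.sum_add_index' (fun _ => rfl) (fun _ _ _ => rfl), Finsupp.sum_single_index rfl]
  omega

theorem pderiv_zero_of_deg {i : Fin 2} {u : MvPolynomial (Fin 2) F} (h : u.totalDegree = 0) : pderiv i u = 0 := by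
  rw [totalDegree_eq_zero_iff_eq_C] at h
  rw [h, pderiv_C]

theorem deg_jac {u v : MvPolynomial (Fin 2) F} (h : jac u v ≠ 0) :
    (jac u v).totalDegree + 2 ≤ u.totalDegree + v.totalDegree := by
  have hu : u.totalDegree ≠ 0 := by
    intro h0
    apply h
    unfold jac
    rw [pderiv_zero_of_deg h0, pderiv_zero_of_deg h0]
    ring
  have hv : v.totalDegree ≠ 0 := by
    intro h0
    apply h
    unfold jac
    rw [pderiv_zero_of_deg h0, pderiv_zero_of_deg h0]
    ring
  have h1 : (jac u v).totalDegree ≤ (u.totalDegree - 1) + (v.totalDegree - 1) := by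
    unfold jac
    refine (totalDegree_sub _ _).trans (max_le ?_ ?_)
    · exact (totalDegree_mul _ _).trans (Nat.add_le_add (deg_pderiv _ _) (deg_pderiv _ _))
    · exact (totalDegree_mul _ _).trans (Nat.add_le_add (deg_pderiv _ _) (deg_pderiv _ _))
  omega

end Pool.Agent.H13.PA
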