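import Pool.Agent.H13.PA.Lead

/-!
# THEOREM PA (MP_2a547c, think 1876), chapter 1: Jung's lemma

`jung`: for an automorphism `φ` of `F[x, y]`, `m = deg φ x`, `n = deg φ y`, `m + n > 2`: `deg (φ x - c (φ y)^k) < m` or `deg (φ y - c (φ x)^k) < n` for some `c` and `k ≥ 1`.
-/

set_option autoImplicit false

namespace Pool.Agent.H13.PA

open MvPolynomial

variable {F : Type} [Field F]

theorem coeff_hc (k : ℕ) (u : MvPolynomial (Fin 2) F) (d : Fin 2 →₀ ℕ) :
    coeff d (homogeneousComponent k u) = if d 0 + d 1 = k then coeff d u else 0 := by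
  rw [coeff_homogeneousComponent, Finsupp.degree_eq_sum, Fin.sum_univ_two]

theorem deg_of_coeff {u : MvPolynomial (Fin 2) F} {d : Fin 2 →₀ ℕ} (hd : coeff d u ≠ 0) :
    d 0 + d 1 ≤ u.totalDegree := by
  have h1 := le_totalDegree (mem_support_iff.2 hd)
  rwa [Finsupp.sum_fintype _ _ (fun _ => rfl), Fin.sum_univ_two] at h1

theorem deg_le_of {u : MvPolynomial (Fin 2) F} {k : ℕ} (h : ∀ d, coeff d u ≠ 0 → d 0 + d 1 ≤ k) : u.totalDegree ≤ k := by
  rw [totalDegree]
  refine Finset.sup_le fun d hd => ?_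
  rw [Finsupp.sum_fintype _ _ (fun _ => rfl), Fin.sum_univ_two]
  exact h d (mem_support_iff.1 hd)

theorem hc_mul {a b : ℕ} {u v : MvPolynomial (Fin 2) F} (hu : u.totalDegree ≤ a) (hv : v.totalDegree ≤ b) :
    homogeneousComponent (a + b) (u * v) = homogeneousComponent a u * homogeneousComponent b v := by
  classical
  ext d
  rw [coeff_hc]
  split_ifs with hd
  · rw [coeff_mul, coeff_mul]
    refine Finset.sum_congr rfl fun x hx => ?_
    rw [Finset.HasAntidiagonal.mem_antidiagonal] at hx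
    rw [coeff_hc, coeff_hc]
    have h0 : x.1 0 + x.2 0 = d 0 := by rw [← hx]; rfl
    have h1 : x.1 1 + x.2 1 = d 1 := by rw [← hx]; rfl
    by_cases c1 : coeff x.1 u = 0
    · rw [c1, zero_mul, ite_self, zero_mul]
    by_cases c2 : coeff x.2 v = 0
    · rw [c2, mul_zero, ite_self, mul_zero]
    have d1 := deg_of_coeff c1
    have d2 := deg_of_coeff c2
    rw [if_pos (by omega), if_pos (by omega)]
  · rw [coeff_mul]
    symm
    refine Finset.sum_eq_zero fun x hx => ?_
    rw [Finset.HasAntidiagonal.mem_antidiagonal] at hx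
    rw [coeff_hc, coeff_hc]
    have h0 : x.1 0 + x.2 0 = d 0 := by rw [← hx]; rfl
    have h1 : x.1 1 + x.2 1 = d 1 := by rw [← hx]; rfl
    split_ifs with c1 c2
    · exfalso
      omega
    · rw [mul_zero]
    · rw [zero_mul]
    · rw [mul_zero]

theorem hc_pow {a : ℕ} {u : MvPolynomial (Fin 2) F} (hu : u.totalDegree ≤ a) (k : ℕ) :
    homogeneousComponent (k * a) (u ^ k) = homogeneousComponent a u ^ k := by
  induction k with
  | zero =>
    rw [zero_mul, pow_zero, pow_zero, homogeneousComponent_zero]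
    simp
  | succ k ih =>
    have h1 : (k + 1) * a = k * a + a := by ring
    rw [h1, pow_succ, pow_succ, hc_mul ?_ hu, ih]
    exact (totalDegree_pow _ _).trans (Nat.mul_le_mul_left k hu)

theorem hc_pderiv {a : ℕ} (ha : 1 ≤ a) (i : Fin 2) (u : MvPolynomial (Fin 2) F) :
    homogeneousComponent (a - 1) (pderiv i u) = pderiv i (homogeneousComponent a u) := by
  ext d
  rw [coeff_hc, coeff_pderiv, coeff_pderiv, coeff_hc]
  have h1 : (d + Finsupp.single i 1 : Fin 2 →₀ ℕ) 0 + (d + Finsupp.single i 1 : Fin 2 →₀ ℕ) 1 = d 0 + d 1 + 1 := by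
    fin_cases i
    · simp
      ring
    · simp
      ring
  rw [h1]
  split_ifs with c1 c2 c2
  · rfl
  · exfalso
    omega
  · exfalso
    omega
  · rw [zero_mul]

theorem hc_jac {a b : ℕ} (ha : 1 ≤ a) (hb : 1 ≤ b) {u v : MvPolynomial (Fin 2) F} (hu : u.totalDegree ≤ a)
    (hv : v.totalDegree ≤ b) :
    homogeneousComponent ((a - 1) + (b - 1)) (jac u v) =
      jac (homogeneousComponent a u) (homogeneousComponent b v) := by
  have du : ∀ i, (pderiv i u).totalDegree ≤ a - 1 := fun i => (deg_pderiv i u).trans (by omega)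
  have dv : ∀ i, (pderiv i v).totalDegree ≤ b - 1 := fun i => (deg_pderiv i v).trans (by omega)
  unfold jac
  rw [map_sub, hc_mul (du _) (dv _), hc_mul (du _) (dv _), hc_pderiv ha, hc_pderiv ha, hc_pderiv hb, hc_pderiv hb]

theorem deg_lt_of_hc {a : ℕ} (ha : 0 < a) {u : MvPolynomial (Fin 2) F} (hu : u.totalDegree ≤ a)
    (h : homogeneousComponent a u = 0) : u.totalDegree < a := by
  have h1 : u.totalDegree ≤ a - 1 := by
    refine deg_le_of fun d hd => ?_
    have h2 := deg_of_coeff hd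
    have h3 : d 0 + d 1 ≠ a := by
      intro h4
      apply hd
      have h5 := congrArg (coeff d) h
      rw [coeff_hc, if_pos h4, coeff_zero] at h5
      exact h5
    omega
  omega

theorem deg_pos (φ : MvPolynomial (Fin 2) F ≃ₐ[F] MvPolynomial (Fin 2) F) (i : Fin 2) :
    1 ≤ (φ (X i)).totalDegree := by
  by_contra h
  have h0 : (φ (X i)).totalDegree = 0 := by omega
  rw [totalDegree_eq_zero_iff_eq_C] at h0
  obtain ⟨a, ha⟩ : ∃ a, a = coeff 0 (φ (X i)) := ⟨_, rfl⟩
  rw [← ha] at h0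
  have h1 : φ (C a) = C a := by
    rw [← algebraMap_eq]
    exact φ.commutes _
  have h2 : (X i : MvPolynomial (Fin 2) F) = C a := φ.injective (h0.trans h1.symm)
  have h3 := congrArg totalDegree h2
  rw [totalDegree_X, totalDegree_C] at h3
  exact one_ne_zero h3

theorem jac_pow (u v : MvPolynomial (Fin 2) F) (k : ℕ) (h : jac u v = 0) : jac (u ^ k) v = 0 := by
  unfold jac at h ⊢
  rw [pderiv_pow, pderiv_pow]
  linear_combination (k : MvPolynomial (Fin 2) F) * u ^ (k - 1) * h

/-- the case `m ∣ n` in the form of a statement about two polynomials -/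
theorem red_of_dvd [CharZero F] {f g : MvPolynomial (Fin 2) F} {c : F} (hJ : jac f g = C c) (hf : 1 ≤ f.totalDegree)
    (hg : 1 ≤ g.totalDegree) (h2 : 2 < f.totalDegree + g.totalDegree) (hdvd : f.totalDegree ∣ g.totalDegree) :
    ∃ (b : F) (k : ℕ), 1 ≤ k ∧ (g - C b * f ^ k).totalDegree < g.totalDegree := by
  obtain ⟨k, hk⟩ := hdvd
  obtain ⟨m, hm⟩ : ∃ m, m = f.totalDegree := ⟨_, rfl⟩
  obtain ⟨n, hn⟩ : ∃ n, n = g.totalDegree := ⟨_, rfl⟩
  rw [← hm, ← hn] at hk h2
  rw [← hm] at hf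
  rw [← hn] at hg ⊢
  have hk1 : 1 ≤ k := by
    rcases Nat.eq_zero_or_pos k with h | h
    · rw [h, mul_zero] at hk
      omega
    · exact h
  have hf0 : homogeneousComponent m f ≠ 0 := by
    intro h
    have := deg_lt_of_hc (by omega) hm.ge h
    omega
  have hJ0 : jac (homogeneousComponent m f) (homogeneousComponent n g) = 0 := by
    rw [← hc_jac hf hg hm.ge hn.ge, hJ]
    apply homogeneousComponent_eq_zero
    rw [totalDegree_C]
    omega
  have hJk := jac_pow _ _ k hJ0
  have hom1 : (homogeneousComponent m f ^ k).IsHomogeneous n := by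
    rw [hk]
    exact (homogeneousComponent_isHomogeneous m f).pow k
  obtain ⟨b, hb⟩ := prop (by omega : n ≠ 0) hom1 (homogeneousComponent_isHomogeneous n g) (pow_ne_zero _ hf0) hJk
  refine ⟨b, k, hk1, ?_⟩
  have hfk : (f ^ k).totalDegree ≤ n := by
    refine (totalDegree_pow _ _).trans ?_
    rw [← hm, hk, mul_comm]
  apply deg_lt_of_hc (by omega)
  · refine (totalDegree_sub _ _).trans (max_le hn.ge ?_)
    refine (totalDegree_mul _ _).trans ?_
    rw [totalDegree_C, zero_add]
    exact hfk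
  · rw [map_sub, homogeneousComponent_C_mul, hb]
    have h3 : homogeneousComponent n (f ^ k) = homogeneousComponent m f ^ k := by
      rw [hk, mul_comm m k]
      exact hc_pow hm.ge k
    rw [h3, sub_self]

/-- Jung's lemma -/
theorem jung [CharZero F] (φ : MvPolynomial (Fin 2) F ≃ₐ[F] MvPolynomial (Fin 2) F)
    (h : 2 < (φ (X 0)).totalDegree + (φ (X 1)).totalDegree) :
    ∃ (c : F) (k : ℕ), 1 ≤ k ∧ ((φ (X 0) - C c * φ (X 1) ^ k).totalDegree < (φ (X 0)).totalDegree ∨
      (φ (X 1) - C c * φ (X 0) ^ k).totalDegree < (φ (X 1)).totalDegree) := by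
  obtain ⟨c, -, hJ⟩ := jac_const φ
  rcases div_deg φ (deg_pos φ 0) (deg_pos φ 1) with hd | hd
  · obtain ⟨b, k, hk, hb⟩ := red_of_dvd hJ (deg_pos φ 0) (deg_pos φ 1) h hd
    exact ⟨b, k, hk, Or.inr hb⟩
  · have hJ' : jac (φ (X 1)) (φ (X 0)) = C (-c) := by
      rw [map_neg, ← hJ]
      unfold jac
      ring
    obtain ⟨b, k, hk, hb⟩ := red_of_dvd hJ' (deg_pos φ 1) (deg_pos φ 0) (by omega) hd
    exact ⟨b, k, hk, Or.inl hb⟩

end Pool.Agent.H13.PA
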