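import Pool.Agent.H13.PA.Est

/-!
# THEOREM PA (MP_2a547c, think 1876), chapter 1: leading forms and Jung's lemma

Homogeneous `u`, `v` of one degree with `jac u v = 0` are proportional: Euler gives `u v_x = v u_x`, so `U V' = V U'` for `U = u(X, 1)`, `V = v(X, 1)`, and `U`, `V` are proportional (divide by the gcd, `wronskian`).
The leading forms `f⁺`, `g⁺` of `φ x`, `φ y` satisfy `jac f⁺ g⁺ = 0` if `m + n > 2`. If `n = m k`: `g⁺ = c (f⁺)^k`.
-/

set_option autoImplicit false

namespace Pool.Agent.H13.PA

open MvPolynomial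

variable {F : Type} [Field F]

theorem uni_prop [CharZero F] {U V : Polynomial F} (hU : U ≠ 0)
    (h : U * Polynomial.derivative V = V * Polynomial.derivative U) : ∃ c : F, V = Polynomial.C c * U := by
  classical
  obtain ⟨g, hg⟩ : ∃ g, g = EuclideanDomain.gcd U V := ⟨_, rfl⟩
  have hg0 : g ≠ 0 := by
    rw [hg]
    intro h0
    exact hU (EuclideanDomain.gcd_eq_zero_iff.1 h0).1
  obtain ⟨A, hA⟩ : g ∣ U := by rw [hg]; exact EuclideanDomain.gcd_dvd_left U V
  obtain ⟨B, hB⟩ : g ∣ V := by rw [hg]; exact EuclideanDomain.gcd_dvd_right U V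
  have hcop : IsCoprime A B := by
    have h1 := EuclideanDomain.gcd_eq_gcd_ab U V
    rw [← hg] at h1
    refine ⟨EuclideanDomain.gcdA U V, EuclideanDomain.gcdB U V, ?_⟩
    apply mul_left_cancel₀ hg0
    calc g * (EuclideanDomain.gcdA U V * A + EuclideanDomain.gcdB U V * B)
        = (g * A) * EuclideanDomain.gcdA U V + (g * B) * EuclideanDomain.gcdB U V := by ring
      _ = g * 1 := by rw [← hA, ← hB, ← h1, mul_one]
  have hw : Polynomial.wronskian A B = 0 := by
    unfold Polynomial.wronskian
    have h1 : g ^ 2 * (A * Polynomial.derivative B - Polynomial.derivative A * B) = 0 := by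
      rw [hA, hB, Polynomial.derivative_mul, Polynomial.derivative_mul] at h
      linear_combination h
    exact (mul_eq_zero.1 h1).resolve_left (pow_ne_zero 2 hg0)
  obtain ⟨h1, h2⟩ := hcop.wronskian_eq_zero_iff.1 hw
  have h3 := Polynomial.eq_C_of_derivative_eq_zero h1
  have h4 := Polynomial.eq_C_of_derivative_eq_zero h2
  have hA0 : A.coeff 0 ≠ 0 := by
    intro h0
    rw [h0, map_zero] at h3
    rw [h3, mul_zero] at hA
    exact hU hA
  refine ⟨B.coeff 0 / A.coeff 0, ?_⟩
  rw [hA, hB, h3, h4, Polynomial.coeff_C_zero, Polynomial.coeff_C_zero]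
  have h5 : (Polynomial.C (B.coeff 0) : Polynomial F) = Polynomial.C (B.coeff 0 / A.coeff 0) * Polynomial.C (A.coeff 0) := by
    rw [← Polynomial.C_mul, div_mul_cancel₀ _ hA0]
  rw [h5]
  ring

/-- dehomogenisation -/
noncomputable def dh : MvPolynomial (Fin 2) F →ₐ[F] Polynomial F := aeval ![Polynomial.X, 1]

theorem dh_pderiv (u : MvPolynomial (Fin 2) F) : dh (pderiv 0 u) = Polynomial.derivative (dh u) := by
  induction u using MvPolynomial.induction_on with
  | C a =>
    rw [pderiv_C, map_zero, dh, aeval_C]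
    change 0 = Polynomial.derivative (Polynomial.C a)
    rw [Polynomial.derivative_C]
  | add p q hp hq => rw [map_add, map_add, hp, hq, map_add, map_add]
  | mul_X p j hp =>
    rw [pderiv_mul, map_add, map_mul, map_mul, map_mul, Polynomial.derivative_mul, hp]
    congr 2
    fin_cases j
    · change dh (pderiv 0 (X 0)) = Polynomial.derivative (dh (X 0))
      rw [pderiv_X_self, map_one, dh, aeval_X]
      change 1 = Polynomial.derivative Polynomial.X
      rw [Polynomial.derivative_X]
    · change dh (pderiv 0 (X 1)) = Polynomial.derivative (dh (X 1))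
      rw [pderiv_X_of_ne (by decide), map_zero, dh, aeval_X]
      change 0 = Polynomial.derivative 1
      rw [Polynomial.derivative_one]

theorem hom_exp {N : ℕ} {u : MvPolynomial (Fin 2) F} (hu : u.IsHomogeneous N) {d : Fin 2 →₀ ℕ} (hd : coeff d u ≠ 0) :
    d 0 + d 1 = N := by
  by_contra h
  apply hd
  apply hu.coeff_eq_zero
  rw [Finsupp.degree_eq_sum, Fin.sum_univ_two]
  exact h

theorem dh_inj {N : ℕ} {u : MvPolynomial (Fin 2) F} (hu : u.IsHomogeneous N) (h : dh u = 0) : u = 0 := by
  ext d
  rw [coeff_zero]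
  by_contra hd
  have hdN : d 0 + d 1 = N := by
    exact hom_exp hu hd
  have h1 : (dh u).coeff (d 0) = coeff d u := by
    conv_lhs => rw [as_sum u]
    rw [map_sum, Polynomial.finsetSum_coeff]
    rw [Finset.sum_eq_single d]
    · rw [dh, aeval_monomial, Finsupp.prod_fintype _ _ (fun _ => pow_zero _), Fin.prod_univ_two]
      simp
    · intro e he hed
      rw [dh, aeval_monomial, Finsupp.prod_fintype _ _ (fun _ => pow_zero _), Fin.prod_univ_two]
      have heN : e 0 + e 1 = N := by
        exact hom_exp hu (mem_support_iff.1 he)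
      have hne : d 0 ≠ e 0 := by
        intro h2
        apply hed
        ext i
        fin_cases i
        · exact h2.symm
        · change e 1 = d 1
          omega
      simp [Polynomial.coeff_X_pow, hne]
    · intro h2
      exact absurd (mem_support_iff.2 hd) h2
  rw [h, Polynomial.coeff_zero] at h1
  exact hd h1.symm

theorem prop [CharZero F] {N : ℕ} (hN : N ≠ 0) {u v : MvPolynomial (Fin 2) F} (hu : u.IsHomogeneous N)
    (hv : v.IsHomogeneous N) (hu0 : u ≠ 0) (hJ : jac u v = 0) : ∃ c : F, v = C c * u := by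
  have e1 := hu.sum_X_mul_pderiv
  have e2 := hv.sum_X_mul_pderiv
  rw [Fin.sum_univ_two, nsmul_eq_mul] at e1 e2
  have hNF : ((N : ℕ) : MvPolynomial (Fin 2) F) ≠ 0 := by exact_mod_cast hN
  have h1 : u * pderiv 0 v = v * pderiv 0 u := by
    apply mul_left_cancel₀ hNF
    unfold jac at hJ
    linear_combination (-pderiv 0 v) * e1 + pderiv 0 u * e2 - X 1 * hJ
  have h2 := congrArg (dh (F := F)) h1
  rw [map_mul, map_mul, dh_pderiv, dh_pderiv] at h2
  obtain ⟨c, hc⟩ := uni_prop (fun h => hu0 (dh_inj hu h)) h2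
  refine ⟨c, ?_⟩
  have h3 : (v - C c * u).IsHomogeneous N := by
    refine hv.sub ?_
    have := (isHomogeneous_C (Fin 2) c).mul hu
    rwa [zero_add] at this
  have h4 : dh (v - C c * u) = 0 := by
    rw [map_sub, map_mul, hc, dh, aeval_C]
    change Polynomial.C c * _ - Polynomial.C c * _ = 0
    rw [sub_self]
  exact sub_eq_zero.1 (dh_inj h3 h4)

end Pool.Agent.H13.PA
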