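import Pool.Agent.H13.PA.Grp

/-!
# THEOREM PA (MP_2a547c, think 1876), chapter 3: stabilisers of long paths

`u ∈ GA ∩ GE`: `u x = al x + la y + mu`, `u y = be y + ga`. `e ∈ GE \ GA`, `e x = r x + P(y)`, `e y = t y + s`, `n = deg P ≥ 2`.
`lemL`: if `u' = e⁻¹ u e ∈ GA` then `P(be y + ga) = al P(y) + p₁ y + p₀`, `p₁ = b₁ t - r la`, so `al = be^n`. If `al = be = 1` then `la = 0` (`a`), `b₁ = 0` (`a'`), `P(y + ga) - P(y)` is constant, `P'` is periodic, so `ga = 0`.
`line`: `a ∈ GA \ GE`, `a⁻¹ u a ∈ GE`: `be(a⁻¹ u a) = al u`.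
`path_stab`: the stabiliser of the path injects into the roots of unity by `be`.
-/

set_option autoImplicit false

namespace Pool.Agent.H13.PA

open MvPolynomial

variable {F : Type} [Field F]

/-- restriction to `x = 0` -/
noncomputable def r0 : MvPolynomial (Fin 2) F →ₐ[F] Polynomial F := aeval ![0, Polynomial.X]

/-- restriction to `y = 0` -/
noncomputable def r1 : MvPolynomial (Fin 2) F →ₐ[F] Polynomial F := aeval ![Polynomial.X, 0]

theorem r0_X0 : r0 (X 0 : MvPolynomial (Fin 2) F) = 0 := by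
  rw [r0, aeval_X]
  rfl

theorem r0_X1 : r0 (X 1 : MvPolynomial (Fin 2) F) = Polynomial.X := by
  rw [r0, aeval_X]
  rfl

theorem r0_C (a : F) : r0 (C a : MvPolynomial (Fin 2) F) = Polynomial.C a := by
  rw [r0, aeval_C]
  rfl

theorem r1_X0 : r1 (X 0 : MvPolynomial (Fin 2) F) = Polynomial.X := by
  rw [r1, aeval_X]
  rfl

theorem r1_X1 : r1 (X 1 : MvPolynomial (Fin 2) F) = 0 := by
  rw [r1, aeval_X]
  rfl

theorem r1_C (a : F) : r1 (C a : MvPolynomial (Fin 2) F) = Polynomial.C a := by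
  rw [r1, aeval_C]
  rfl

/-- comparison of coefficients -/
theorem lin_ext {a b c a' b' c' : F} (h : (C a * X 0 + C b * X 1 + C c : MvPolynomial (Fin 2) F) =
    C a' * X 0 + C b' * X 1 + C c') : a = a' ∧ b = b' ∧ c = c' := by
  have h0 := congrArg (r0 (F := F)) h
  have h1 := congrArg (r1 (F := F)) h
  simp only [map_add, map_mul, r0_X0, r0_X1, r0_C, r1_X0, r1_X1, r1_C, mul_zero, zero_add, add_zero] at h0 h1
  have e0 := congrArg (fun q : Polynomial F => q.coeff 1) h0
  have e1 := congrArg (fun q : Polynomial F => q.coeff 1) h1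
  have e2 := congrArg (fun q : Polynomial F => q.coeff 0) h0
  simp at e0 e1 e2
  exact ⟨e1, e0, e2⟩

/-- polynomials with zero derivative in `x` -/
theorem y_form [CharZero F] {w : MvPolynomial (Fin 2) F} (h : pderiv 0 w = 0) :
    w = Polynomial.aeval (X 1 : MvPolynomial (Fin 2) F) (r0 w) := by
  have hd : ∀ d : Fin 2 →₀ ℕ, d 0 ≠ 0 → coeff d w = 0 := by
    intro d hd
    obtain ⟨e, he⟩ : ∃ e : Fin 2 →₀ ℕ, d = e + Finsupp.single 0 1 := by
      refine ⟨d - Finsupp.single 0 1, ?_⟩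
      rw [tsub_add_cancel_of_le]
      rw [Finsupp.single_le_iff]
      omega
    have h1 := congrArg (coeff e) h
    rw [coeff_pderiv, coeff_zero, ← he] at h1
    have h2 : ((e 0 : F) + 1) ≠ 0 := by exact_mod_cast Nat.succ_ne_zero (e 0)
    exact (mul_eq_zero.1 h1).resolve_right h2
  conv_rhs => rw [as_sum w]
  conv_lhs => rw [as_sum w]
  rw [map_sum, map_sum]
  refine Finset.sum_congr rfl fun d hdw => ?_
  have hd0 : d 0 = 0 := by
    by_contra h0
    exact (mem_support_iff.1 hdw) (hd d h0)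
  rw [r0, aeval_monomial, Finsupp.prod_fintype _ _ (fun _ => pow_zero _), Fin.prod_univ_two, hd0, pow_zero, one_mul,
    map_mul, map_pow]
  have h1 : (![0, Polynomial.X] : Fin 2 → Polynomial F) 1 = Polynomial.X := rfl
  rw [h1, Polynomial.aeval_X, monomial_eq, Finsupp.prod_fintype _ _ (fun _ => pow_zero _), Fin.prod_univ_two, hd0,
    pow_zero, one_mul]
  congr 1
  change _ = Polynomial.aeval (X 1 : MvPolynomial (Fin 2) F) (Polynomial.C (coeff d w))
  rw [Polynomial.aeval_C]
  rfl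

/-- normal form of an elementary automorphism -/
theorem el_form [CharZero F] {φ : MvPolynomial (Fin 2) F ≃ₐ[F] MvPolynomial (Fin 2) F} (h : φ ∈ GE F) :
    ∃ (r t s : F) (P : Polynomial F), r ≠ 0 ∧ t ≠ 0 ∧
      φ (X 0) = C r * X 0 + Polynomial.aeval (X 1 : MvPolynomial (Fin 2) F) P ∧ φ (X 1) = C t * X 1 + C s := by
  obtain ⟨t, s, ht, h1⟩ := h
  obtain ⟨c, hc, hJ⟩ := jac_const φ
  have h01 : pderiv 0 (X 1 : MvPolynomial (Fin 2) F) = 0 := pderiv_X_of_ne (by decide)
  have hp0 : pderiv 0 (φ (X 1)) = 0 := by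
    rw [h1, map_add, pderiv_C_mul, h01, pderiv_C]
    ring
  have hp1 : pderiv 1 (φ (X 1)) = C t := by
    rw [h1, map_add, pderiv_C_mul, pderiv_X_self, pderiv_C]
    ring
  have h2 : pderiv 0 (φ (X 0)) = C (c / t) := by
    unfold jac at hJ
    rw [hp0, hp1, mul_zero, sub_zero] at hJ
    have h3 : (C t : MvPolynomial (Fin 2) F) ≠ 0 := by
      rw [Ne, C_eq_zero]
      exact ht
    apply mul_right_cancel₀ h3
    rw [hJ, ← C_mul, div_mul_cancel₀ _ ht]
  refine ⟨c / t, t, s, r0 (φ (X 0) - C (c / t) * X 0), div_ne_zero hc ht, ht, ?_, h1⟩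
  rw [← y_form]
  · ring
  · rw [map_sub, pderiv_C_mul, pderiv_X_self, h2]
    ring

/-- the coefficients -/
noncomputable def al (u : MvPolynomial (Fin 2) F ≃ₐ[F] MvPolynomial (Fin 2) F) : F := (r1 (u (X 0))).coeff 1

noncomputable def be (u : MvPolynomial (Fin 2) F ≃ₐ[F] MvPolynomial (Fin 2) F) : F := (r0 (u (X 1))).coeff 1

noncomputable def la (u : MvPolynomial (Fin 2) F ≃ₐ[F] MvPolynomial (Fin 2) F) : F := (r0 (u (X 0))).coeff 1

noncomputable def mu (u : MvPolynomial (Fin 2) F ≃ₐ[F] MvPolynomial (Fin 2) F) : F := (r0 (u (X 0))).coeff 0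

noncomputable def ga (u : MvPolynomial (Fin 2) F ≃ₐ[F] MvPolynomial (Fin 2) F) : F := (r0 (u (X 1))).coeff 0

theorem form_A {u : MvPolynomial (Fin 2) F ≃ₐ[F] MvPolynomial (Fin 2) F} (hA : u ∈ GA F) :
    u (X 0) = C (al u) * X 0 + C (la u) * X 1 + C (mu u) := by
  obtain ⟨a, b, c, h⟩ := aff_form (hA 0)
  have h1 : al u = a := by
    rw [al, h]
    simp only [map_add, map_mul, r1_X0, r1_X1, r1_C, mul_zero, add_zero]
    simp
  have h2 : la u = b := by
    rw [la, h]
    simp only [map_add, map_mul, r0_X0, r0_X1, r0_C, mul_zero, zero_add]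
    simp
  have h3 : mu u = c := by
    rw [mu, h]
    simp only [map_add, map_mul, r0_X0, r0_X1, r0_C, mul_zero, zero_add]
    simp
  rw [h1, h2, h3, h]

theorem form_E {u : MvPolynomial (Fin 2) F ≃ₐ[F] MvPolynomial (Fin 2) F} (hE : u ∈ GE F) :
    u (X 1) = C (be u) * X 1 + C (ga u) ∧ be u ≠ 0 := by
  obtain ⟨t, s, ht, h⟩ := hE
  have h1 : be u = t := by
    rw [be, h]
    simp only [map_add, map_mul, r0_X1, r0_C]
    simp
  have h2 : ga u = s := by
    rw [ga, h]
    simp only [map_add, map_mul, r0_X1, r0_C]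
    simp
  rw [h1, h2]
  exact ⟨h, ht⟩

theorem be_eq {u : MvPolynomial (Fin 2) F ≃ₐ[F] MvPolynomial (Fin 2) F} {t s : F} (h : u (X 1) = C t * X 1 + C s) :
    be u = t ∧ ga u = s := by
  constructor
  · rw [be, h]
    simp only [map_add, map_mul, r0_X1, r0_C]
    simp
  · rw [ga, h]
    simp only [map_add, map_mul, r0_X1, r0_C]
    simp

theorem be_mul {u v : MvPolynomial (Fin 2) F ≃ₐ[F] MvPolynomial (Fin 2) F} (hu : u ∈ GE F) (hv : v ∈ GE F) :
    be (u * v) = be u * be v := by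
  have h1 : (u * v) (X 1) = C (be u * be v) * X 1 + C (be v * ga u + ga v) := by
    change u (v (X 1)) = _
    rw [(form_E hv).1, map_add, map_mul, map_C, map_C, (form_E hu).1, map_mul, map_add, map_mul]
    ring
  exact (be_eq h1).1

/-- the second line of an affine automorphism that is not elementary -/
theorem A_line {a : MvPolynomial (Fin 2) F ≃ₐ[F] MvPolynomial (Fin 2) F} (hA : a ∈ GA F) (hE : a ∉ GE F) :
    ∃ p q s : F, p ≠ 0 ∧ a (X 1) = C p * X 0 + C q * X 1 + C s := by
  obtain ⟨p, q, s, h⟩ := aff_form (hA 1)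
  refine ⟨p, q, s, ?_, h⟩
  rintro rfl
  apply hE
  have h1 : a (X 1) = C q * X 1 + C s := by
    rw [h, map_zero]
    ring
  refine ⟨q, s, ?_, h1⟩
  rintro rfl
  have h2 : a (X 1) = a (C s) := by
    rw [h1, map_C, map_zero]
    ring
  have h3 := congrArg totalDegree (a.injective h2)
  rw [totalDegree_X, totalDegree_C] at h3
  exact one_ne_zero h3

theorem line {a u : MvPolynomial (Fin 2) F ≃ₐ[F] MvPolynomial (Fin 2) F} (haA : a ∈ GA F) (haE : a ∉ GE F)
    (huA : u ∈ GA F) (huE : u ∈ GE F) (h : a⁻¹ * u * a ∈ GE F) :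
    be (a⁻¹ * u * a) = al u ∧ (al u = be u → la u = 0) := by
  obtain ⟨p, q, s, hp, ha⟩ := A_line haA haE
  have h1 : u (a (X 1)) = a ((a⁻¹ * u * a) (X 1)) := by
    have h2 : a * (a⁻¹ * u * a) = u * a := by group
    have h3 := congrArg (fun z : MvPolynomial (Fin 2) F ≃ₐ[F] MvPolynomial (Fin 2) F => z (X 1)) h2
    exact h3.symm
  obtain ⟨v, hv⟩ : ∃ v, v = a⁻¹ * u * a := ⟨_, rfl⟩
  rw [← hv] at h h1 ⊢
  rw [(form_E h).1, map_add, map_mul, map_C, map_C, ha, map_lin, form_A huA, (form_E huE).1] at h1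
  have h2 : (C (p * al u) * X 0 + C (p * la u + q * be u) * X 1 + C (p * mu u + q * ga u + s) :
      MvPolynomial (Fin 2) F) = C (be v * p) * X 0 + C (be v * q) * X 1 + C (be v * s + ga v) := by
    simp only [map_add, map_mul]
    linear_combination h1
  obtain ⟨e1, e2, -⟩ := lin_ext h2
  have e3 : be v = al u := by
    apply mul_right_cancel₀ hp
    rw [← e1]
    ring
  refine ⟨e3, fun h3 => ?_⟩
  have e4 : p * la u = 0 := by
    rw [e3, h3] at e2
    linear_combination e2
  exact (mul_eq_zero.1 e4).resolve_left hp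

/-- a polynomial with a constant difference -/
theorem per [CharZero F] {P : Polynomial F} (hP : 2 ≤ P.natDegree) {g c : F}
    (h : P.comp (Polynomial.X + Polynomial.C g) = P + Polynomial.C c) : g = 0 := by
  by_contra hg
  obtain ⟨Q, hQ⟩ : ∃ Q, Q = Polynomial.derivative P := ⟨_, rfl⟩
  have h1 : Q.comp (Polynomial.X + Polynomial.C g) = Q := by
    have h2 := congrArg Polynomial.derivative h
    rw [Polynomial.derivative_comp, Polynomial.derivative_add, Polynomial.derivative_add, Polynomial.derivative_X,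
      Polynomial.derivative_C, Polynomial.derivative_C, add_zero, add_zero, one_mul, ← hQ] at h2
    exact h2
  have h2 : ∀ k : ℕ, Q.eval (k * g) = Q.eval 0 := by
    intro k
    induction k with
    | zero => simp
    | succ k ih =>
      rw [← ih]
      conv_rhs => rw [← h1]
      rw [Polynomial.eval_comp, Polynomial.eval_add, Polynomial.eval_X, Polynomial.eval_C]
      congr 1
      push_cast
      ring
  have h3 : Q - Polynomial.C (Q.eval 0) = 0 := by
    apply Polynomial.eq_zero_of_infinite_isRoot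
    refine Set.infinite_of_injective_forall_mem (f := fun k : ℕ => (k : F) * g) ?_ ?_
    · intro i j hij
      have h4 : (i : F) * g = (j : F) * g := hij
      exact_mod_cast mul_right_cancel₀ hg h4
    · intro k
      change Polynomial.IsRoot _ _
      rw [Polynomial.IsRoot, Polynomial.eval_sub, Polynomial.eval_C, h2, sub_self]
  have h4 : Q.natDegree = 0 := by
    rw [sub_eq_zero.1 h3]
    exact Polynomial.natDegree_C _
  have h5 : Q.coeff (P.natDegree - 1) = 0 := Polynomial.coeff_eq_zero_of_natDegree_lt (by omega)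
  rw [hQ, Polynomial.coeff_derivative] at h5
  have h6 : P.natDegree - 1 + 1 = P.natDegree := by omega
  rw [h6, Polynomial.coeff_natDegree] at h5
  have hlc : P.leadingCoeff ≠ 0 := by
    rw [Ne, Polynomial.leadingCoeff_eq_zero]
    rintro rfl
    simp at hP
  rcases mul_eq_zero.1 h5 with h7 | h7
  · exact hlc h7
  · have h8 : (((P.natDegree - 1 + 1 : ℕ)) : F) = 0 := by
      push_cast
      exact h7
    have h9 : P.natDegree - 1 + 1 = 0 := by exact_mod_cast h8
    omega

/-- Lemma L -/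
theorem lemL [CharZero F] {e : MvPolynomial (Fin 2) F ≃ₐ[F] MvPolynomial (Fin 2) F} (heE : e ∈ GE F) (heA : e ∉ GA F) :
    ∃ n : ℕ, 2 ≤ n ∧ ∀ u a a' : MvPolynomial (Fin 2) F ≃ₐ[F] MvPolynomial (Fin 2) F, u ∈ GA F → u ∈ GE F →
      a ∈ GA F → a ∉ GE F → a' ∈ GA F → a' ∉ GE F → a⁻¹ * u * a ∈ GE F → e⁻¹ * u * e ∈ GA F →
      a'⁻¹ * (e⁻¹ * u * e) * a' ∈ GE F → al u = be u ^ n ∧ (be u = 1 → ga u = 0) := by
  obtain ⟨r, t, s, P, hr, ht, he0, he1⟩ := el_form heE
  have hn : 2 ≤ P.natDegree := by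
    by_contra hcon
    push Not at hcon
    apply heA
    have hP : P = Polynomial.C (P.coeff 1) * Polynomial.X + Polynomial.C (P.coeff 0) :=
      Polynomial.eq_X_add_C_of_natDegree_le_one (by omega)
    have h1 : e (X 0) = C r * X 0 + C (P.coeff 1) * X 1 + C (P.coeff 0) := by
      rw [he0]
      conv_lhs => rw [hP]
      rw [map_add, map_mul, Polynomial.aeval_X, Polynomial.aeval_C, Polynomial.aeval_C]
      change _ + (C _ * _ + C _) = _
      ring
    intro i
    fin_cases i
    · change (e (X 0)).totalDegree ≤ 1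
      rw [h1]
      exact deg_aff _ _ _
    · change (e (X 1)).totalDegree ≤ 1
      have h2 : e (X 1) = C 0 * X 0 + C t * X 1 + C s := by
        rw [he1, map_zero]
        ring
      rw [h2]
      exact deg_aff _ _ _
  refine ⟨P.natDegree, hn, ?_⟩
  intro u a a' huA huE haA haE haA' haE' hau heu ha'u
  obtain ⟨v, hv⟩ : ∃ v, v = e⁻¹ * u * e := ⟨_, rfl⟩
  rw [← hv] at heu ha'u
  have hvE : v ∈ GE F := by
    rw [hv]
    exact (GE F).mul_mem ((GE F).mul_mem ((GE F).inv_mem heE) huE) heE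
  have hmap : ∀ w, u (e w) = e (v w) := by
    intro w
    have h2 : e * v = u * e := by
      rw [hv]
      group
    exact (congrArg (fun z : MvPolynomial (Fin 2) F ≃ₐ[F] MvPolynomial (Fin 2) F => z w) h2).symm
  have hua : ∀ Q : Polynomial F, u (Polynomial.aeval (X 1 : MvPolynomial (Fin 2) F) Q) =
      Polynomial.aeval (u (X 1)) Q := by
    intro Q
    exact (Polynomial.aeval_algHom_apply (u : MvPolynomial (Fin 2) F →ₐ[F] MvPolynomial (Fin 2) F) (X 1) Q).symm
  -- the second coordinate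
  have k1 := hmap (X 1)
  rw [he1, map_add, map_mul, map_C, map_C, (form_E huE).1, (form_E hvE).1, map_add, map_mul, map_C, map_C, he1] at k1
  have k1' : (C 0 * X 0 + C (t * be u) * X 1 + C (t * ga u + s) : MvPolynomial (Fin 2) F) =
      C 0 * X 0 + C (be v * t) * X 1 + C (be v * s + ga v) := by
    simp only [map_add, map_mul, map_zero]
    linear_combination k1
  obtain ⟨-, k2, -⟩ := lin_ext k1'
  have hbv : be v = be u := by
    apply mul_right_cancel₀ ht
    rw [← k2]
    ring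
  -- the first coordinate
  have m1 := hmap (X 0)
  rw [he0, map_add, map_mul, map_C, hua, form_A huA, (form_E huE).1, form_A heu, map_lin, he0, he1] at m1
  have m2 := congrArg (r1 (F := F)) m1
  have m3 := congrArg (r0 (F := F)) m1
  have r1a : ∀ (w : MvPolynomial (Fin 2) F) (Q : Polynomial F), r1 (Polynomial.aeval w Q) = Polynomial.aeval (r1 w) Q :=
    fun w Q => (Polynomial.aeval_algHom_apply r1 w Q).symm
  have r0a : ∀ (w : MvPolynomial (Fin 2) F) (Q : Polynomial F), r0 (Polynomial.aeval w Q) = Polynomial.aeval (r0 w) Q :=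
    fun w Q => (Polynomial.aeval_algHom_apply r0 w Q).symm
  simp only [map_add, map_mul, r1_X0, r1_X1, r1_C, r0_X0, r0_X1, r0_C, r1a, r0a, mul_zero, zero_add, add_zero] at m2 m3
  have aC : ∀ (b : F) (Q : Polynomial F), Polynomial.aeval (Polynomial.C b) Q = Polynomial.C (Q.eval b) := by
    intro b Q
    have := Polynomial.aeval_algebraMap_apply (Polynomial F) b Q
    rw [← Polynomial.coe_aeval_eq_eval]
    exact this
  have a0 : ∀ Q : Polynomial F, Polynomial.aeval (0 : Polynomial F) Q = Polynomial.C (Q.eval 0) := by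
    intro Q
    have := aC 0 Q
    rwa [map_zero] at this
  have aX : ∀ (w Q : Polynomial F), Polynomial.aeval w Q = Q.comp w := fun w Q => rfl
  rw [aC, a0] at m2
  rw [aX, aX, Polynomial.comp_X] at m3
  have m4 := congrArg (fun q : Polynomial F => q.coeff 1) m2
  simp at m4
  have hal : al v = al u := by
    apply mul_right_cancel₀ hr
    rw [mul_comm (al u) r]
    exact m4.symm
  rw [hal] at m3
  have m5 : P.comp (Polynomial.C (be u) * Polynomial.X + Polynomial.C (ga u)) =
      Polynomial.C (al u) * P + Polynomial.C (la v * t - r * la u) * Polynomial.X +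
        Polynomial.C (la v * s + mu v - r * mu u) := by
    simp only [map_add, map_mul, map_sub]
    linear_combination m3
  constructor
  · have m6 := congrArg (fun q : Polynomial F => q.coeff P.natDegree) m5
    simp only [Polynomial.coeff_add, Polynomial.coeff_C_mul] at m6
    rw [Polynomial.coeff_X_of_ne_one (by omega), Polynomial.coeff_C_of_ne_zero (by omega), mul_zero, add_zero,
      add_zero] at m6
    have m7 : (P.comp (Polynomial.C (be u) * Polynomial.X + Polynomial.C (ga u))).coeff P.natDegree =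
        P.leadingCoeff * be u ^ P.natDegree := by
      have hb := (form_E huE).2
      have d1 : (Polynomial.C (be u) * Polynomial.X + Polynomial.C (ga u) : Polynomial F).natDegree = 1 :=
        Polynomial.natDegree_linear hb
      have d2 : (Polynomial.C (be u) * Polynomial.X + Polynomial.C (ga u) : Polynomial F).leadingCoeff = be u :=
        Polynomial.leadingCoeff_linear hb
      have d3 : (P.comp (Polynomial.C (be u) * Polynomial.X + Polynomial.C (ga u))).natDegree = P.natDegree := by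
        rw [Polynomial.natDegree_comp, d1, mul_one]
      rw [← d3, Polynomial.coeff_natDegree, Polynomial.leadingCoeff_comp (by rw [d1]; exact one_ne_zero), d2, d3]
    rw [m7] at m6
    have hlc : P.leadingCoeff ≠ 0 := by
      rw [Ne, Polynomial.leadingCoeff_eq_zero]
      rintro rfl
      simp at hn
    apply mul_right_cancel₀ hlc
    rw [mul_comm (be u ^ P.natDegree)]
    exact m6.symm
  · intro hb1
    have ha1 : al u = 1 := by
      have m6 := congrArg (fun q : Polynomial F => q.coeff P.natDegree) m5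
      simp only [Polynomial.coeff_add, Polynomial.coeff_C_mul] at m6
      rw [Polynomial.coeff_X_of_ne_one (by omega), Polynomial.coeff_C_of_ne_zero (by omega), mul_zero, add_zero,
        add_zero, hb1, map_one, one_mul] at m6
      have d3 : (P.comp (Polynomial.X + Polynomial.C (ga u))).natDegree = P.natDegree := by
        rw [Polynomial.natDegree_comp, Polynomial.natDegree_X_add_C, mul_one]
      have m7 : (P.comp (Polynomial.X + Polynomial.C (ga u))).coeff P.natDegree = P.leadingCoeff := by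
        rw [← d3, Polynomial.coeff_natDegree, Polynomial.leadingCoeff_comp
          (by rw [Polynomial.natDegree_X_add_C]; exact one_ne_zero), Polynomial.leadingCoeff_X_add_C, one_pow, mul_one]
      rw [m7] at m6
      have hlc : P.leadingCoeff ≠ 0 := by
        rw [Ne, Polynomial.leadingCoeff_eq_zero]
        rintro rfl
        simp at hn
      apply mul_right_cancel₀ hlc
      rw [one_mul]
      exact m6.symm
    have hla : la u = 0 := (line haA haE huA huE hau).2 (by rw [ha1, hb1])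
    have hlv : la v = 0 := (line haA' haE' heu hvE ha'u).2 (by rw [hal, ha1, hbv, hb1])
    rw [hb1, map_one, one_mul, ha1, map_one, one_mul, hla, hlv, zero_mul, mul_zero, sub_zero, map_zero, zero_mul,
      add_zero] at m5
    exact per hn m5

/-- the stabiliser of a path with seven vertices `w₀ v₀ w₁ v₁ w₂ v₂ w₃` -/
def PS (a a' a'' e e' : MvPolynomial (Fin 2) F ≃ₐ[F] MvPolynomial (Fin 2) F) :
    Set (MvPolynomial (Fin 2) F ≃ₐ[F] MvPolynomial (Fin 2) F) :=
  {g | g ∈ GA F ∧ g ∈ GE F ∧ a⁻¹ * g * a ∈ GE F ∧ e⁻¹ * g * e ∈ GA F ∧ (e * a')⁻¹ * g * (e * a') ∈ GE F ∧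
    (a * e')⁻¹ * g * (a * e') ∈ GA F ∧ (a * e' * a'')⁻¹ * g * (a * e' * a'') ∈ GE F}

theorem conj_div {G : Type} [Group G] (H : Subgroup G) {x g h : G} (hg : x⁻¹ * g * x ∈ H) (hh : x⁻¹ * h * x ∈ H) :
    x⁻¹ * (g⁻¹ * h) * x ∈ H := by
  have h1 : x⁻¹ * (g⁻¹ * h) * x = (x⁻¹ * g * x)⁻¹ * (x⁻¹ * h * x) := by group
  rw [h1]
  exact H.mul_mem (H.inv_mem hg) hh

theorem PS_div {a a' a'' e e' g h : MvPolynomial (Fin 2) F ≃ₐ[F] MvPolynomial (Fin 2) F}
    (hg : g ∈ PS a a' a'' e e') (hh : h ∈ PS a a' a'' e e') : g⁻¹ * h ∈ PS a a' a'' e e' := by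
  obtain ⟨g1, g2, g3, g4, g5, g6, g7⟩ := hg
  obtain ⟨h1, h2, h3, h4, h5, h6, h7⟩ := hh
  exact ⟨(GA F).mul_mem ((GA F).inv_mem g1) h1, (GE F).mul_mem ((GE F).inv_mem g2) h2, conj_div _ g3 h3,
    conj_div _ g4 h4, conj_div _ g5 h5, conj_div _ g6 h6, conj_div _ g7 h7⟩

/-- stabilisers of long paths are small -/
theorem path_stab [CharZero F] {N : ℕ} (hf : {z : F | ∃ k : ℕ, 0 < k ∧ z ^ k = 1}.Finite)
    (hN : {z : F | ∃ k : ℕ, 0 < k ∧ z ^ k = 1}.ncard ≤ N)
    {a a' a'' e e' : MvPolynomial (Fin 2) F ≃ₐ[F] MvPolynomial (Fin 2) F}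
    (ha : a ∈ GA F) (ha1 : a ∉ GE F) (ha' : a' ∈ GA F) (ha1' : a' ∉ GE F) (ha'' : a'' ∈ GA F) (ha1'' : a'' ∉ GE F)
    (he : e ∈ GE F) (he1 : e ∉ GA F) (he' : e' ∈ GE F) (he1' : e' ∉ GA F) :
    (PS a a' a'' e e').Finite ∧ (PS a a' a'' e e').ncard ≤ N := by
  obtain ⟨n, hn, hL⟩ := lemL he he1
  obtain ⟨n', hn', hL'⟩ := lemL he' he1'
  have ha2 : a⁻¹ ∈ GA F := (GA F).inv_mem ha
  have ha3 : a⁻¹ ∉ GE F := fun h => ha1 (by simpa using (GE F).inv_mem h)
  have key : ∀ g ∈ PS a a' a'' e e', al g = be g ^ n ∧ (be g = 1 → ga g = 0) ∧ be (a⁻¹ * g * a) = al g ∧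
      be g = be (a⁻¹ * g * a) ^ n' ∧ (be (a⁻¹ * g * a) = 1 → ga (a⁻¹ * g * a) = 0) := by
    rintro g ⟨g1, g2, g3, g4, g5, g6, g7⟩
    have g5' : a'⁻¹ * (e⁻¹ * g * e) * a' ∈ GE F := by
      have h1 : a'⁻¹ * (e⁻¹ * g * e) * a' = (e * a')⁻¹ * g * (e * a') := by group
      rw [h1]
      exact g5
    obtain ⟨l1, l2⟩ := hL g a a' g1 g2 ha ha1 ha' ha1' g3 g4 g5'
    have g1t : a⁻¹ * g * a ∈ GA F := (GA F).mul_mem ((GA F).mul_mem ha2 g1) ha
    have g3t : a⁻¹⁻¹ * (a⁻¹ * g * a) * a⁻¹ ∈ GE F := by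
      have h1 : a⁻¹⁻¹ * (a⁻¹ * g * a) * a⁻¹ = g := by group
      rw [h1]
      exact g2
    have g4t : e'⁻¹ * (a⁻¹ * g * a) * e' ∈ GA F := by
      have h1 : e'⁻¹ * (a⁻¹ * g * a) * e' = (a * e')⁻¹ * g * (a * e') := by group
      rw [h1]
      exact g6
    have g5t : a''⁻¹ * (e'⁻¹ * (a⁻¹ * g * a) * e') * a'' ∈ GE F := by
      have h1 : a''⁻¹ * (e'⁻¹ * (a⁻¹ * g * a) * e') * a'' = (a * e' * a'')⁻¹ * g * (a * e' * a'') := by group
      rw [h1]
      exact g7
    obtain ⟨l3, l4⟩ := hL' (a⁻¹ * g * a) a⁻¹ a'' g1t g3 ha2 ha3 ha'' ha1'' g3t g4t g5t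
    have l5 := (line ha ha1 g1 g2 g3).1
    have l6 := (line ha2 ha3 g1t g3 g3t).1
    have h1 : a⁻¹⁻¹ * (a⁻¹ * g * a) * a⁻¹ = g := by group
    rw [h1] at l6
    exact ⟨l1, l2, l5, by rw [← l3, ← l6], l4⟩
  have hmaps : ∀ g ∈ PS a a' a'' e e', be g ∈ {z : F | ∃ k : ℕ, 0 < k ∧ z ^ k = 1} := by
    intro g hg
    obtain ⟨l1, -, l3, l4, -⟩ := key g hg
    have hb := (form_E hg.2.1).2
    have h2 : 4 ≤ n * n' := Nat.mul_le_mul hn hn'
    refine ⟨n * n' - 1, by omega, ?_⟩
    apply mul_right_cancel₀ hb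
    rw [← pow_succ, one_mul]
    have h3 : n * n' - 1 + 1 = n * n' := by omega
    rw [h3, pow_mul, ← l1, ← l3, ← l4]
  have hinj : Set.InjOn be (PS a a' a'' e e') := by
    intro g hg h hh hgh
    obtain ⟨w, hw⟩ : ∃ w, w = g⁻¹ * h := ⟨_, rfl⟩
    have hwS : w ∈ PS a a' a'' e e' := by
      rw [hw]
      exact PS_div hg hh
    have hgw : h = g * w := by
      rw [hw]
      group
    have hbg := (form_E hg.2.1).2
    have hbw : be w = 1 := by
      have h1 := be_mul hg.2.1 hwS.2.1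
      rw [← hgw, ← hgh] at h1
      apply mul_left_cancel₀ hbg
      rw [← h1, mul_one]
    obtain ⟨l1, l2, l3, l4, l5⟩ := key w hwS
    rw [hbw, one_pow] at l1
    have hga := l2 hbw
    rw [l1] at l3
    have hga' := l5 l3
    have hw1 : w (X 1) = X 1 := by
      rw [(form_E hwS.2.1).1, hbw, hga, map_one, map_zero]
      ring
    have hw2 : (a⁻¹ * w * a) (X 1) = X 1 := by
      rw [(form_E hwS.2.2.1).1, l3, hga', map_one, map_zero]
      ring
    have hw3 : w (a (X 1)) = a (X 1) := by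
      have h2 : a * (a⁻¹ * w * a) = w * a := by group
      have h3 := congrArg (fun z : MvPolynomial (Fin 2) F ≃ₐ[F] MvPolynomial (Fin 2) F => z (X 1)) h2
      have h4 : a ((a⁻¹ * w * a) (X 1)) = w (a (X 1)) := h3
      rw [← h4, hw2]
    obtain ⟨p, q, s, hp, hpa⟩ := A_line ha ha1
    rw [hpa, map_lin, hw1] at hw3
    have hp' : (C p : MvPolynomial (Fin 2) F) ≠ 0 := by
      rw [Ne, C_eq_zero]
      exact hp
    have hw0 : w (X 0) = X 0 := by
      apply mul_left_cancel₀ hp'
      linear_combination hw3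
    have hw' : w = 1 := by
      apply AlgEquiv.coe_toAlgHom_injective
      apply MvPolynomial.algHom_ext
      intro i
      fin_cases i
      · exact hw0
      · exact hw1
    rw [hgw, hw', mul_one]
  constructor
  · exact Set.Finite.of_injOn hmaps hinj hf
  · exact (Set.ncard_le_ncard_of_injOn be hmaps hinj hf).trans hN

end Pool.Agent.H13.PA
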